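import Mathlib

/-!
Uniform definability in two structures, and translation between languages.
-/

set_option autoImplicit false

open FirstOrder FirstOrder.Language

namespace Pool.Agent.Run7.h57.MUB

section
variable {L : FirstOrder.Language.{0, 0}} {N M : Type} [L.Structure N] [L.Structure M]

/-- the relations `R` on `N` and `R'` on `M` are given by the same formula -/
def UD (L : FirstOrder.Language.{0, 0}) {N M : Type} [L.Structure N] [L.Structure M] {α : Type}
    (R : (α → N) → Prop) (R' : (α → M) → Prop) : Prop :=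
  ∃ φ : L.Formula α, (∀ v : α → N, φ.Realize v ↔ R v) ∧ ∀ v : α → M, φ.Realize v ↔ R' v

variable {α β : Type} {R S : (α → N) → Prop} {R' S' : (α → M) → Prop}

theorem UD.congr {R1 : (α → N) → Prop} {R1' : (α → M) → Prop} (h : UD L R R')
    (e : ∀ v, R v ↔ R1 v) (e' : ∀ v, R' v ↔ R1' v) : UD L R1 R1' := by
  obtain ⟨φ, h1, h2⟩ := h
  exact ⟨φ, fun v => (h1 v).trans (e v), fun v => (h2 v).trans (e' v)⟩

theorem UD.not (h : UD L R R') : UD L (fun v => ¬ R v) (fun v => ¬ R' v) := by
  obtain ⟨φ, h1, h2⟩ := h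
  refine ⟨Formula.not φ, fun v => ?_, fun v => ?_⟩
  · rw [Formula.realize_not, h1]
  · rw [Formula.realize_not, h2]

theorem UD.and (h : UD L R R') (h' : UD L S S') : UD L (fun v => R v ∧ S v) (fun v => R' v ∧ S' v) := by
  obtain ⟨φ, h1, h2⟩ := h
  obtain ⟨ψ, h3, h4⟩ := h'
  refine ⟨φ ⊓ ψ, fun v => ?_, fun v => ?_⟩
  · rw [Formula.realize_inf, h1, h3]
  · rw [Formula.realize_inf, h2, h4]

theorem UD.imp (h : UD L R R') (h' : UD L S S') : UD L (fun v => R v → S v) (fun v => R' v → S' v) := by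
  refine (h.and h'.not).not.congr (fun v => ?_) (fun v => ?_) <;> tauto

theorem UD.false : UD L (fun _ : α → N => False) (fun _ : α → M => False) :=
  ⟨⊥, fun v => by simp [Formula.Realize], fun v => by simp [Formula.Realize]⟩

theorem UD.relabel (h : UD L R R') (g : α → β) :
    UD L (fun v : β → N => R (v ∘ g)) (fun v : β → M => R' (v ∘ g)) := by
  obtain ⟨φ, h1, h2⟩ := h
  refine ⟨φ.relabel g, fun v => ?_, fun v => ?_⟩
  · rw [Formula.realize_relabel, h1]
  · rw [Formula.realize_relabel, h2]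

theorem UD.eq (a b : α) : UD L (fun v : α → N => v a = v b) (fun v : α → M => v a = v b) :=
  ⟨Term.equal (Term.var a) (Term.var b), fun v => by simp, fun v => by simp⟩

theorem UD.ex [Finite β] {R : (α ⊕ β → N) → Prop} {R' : (α ⊕ β → M) → Prop} (h : UD L R R') :
    UD L (fun v => ∃ y : β → N, R (Sum.elim v y)) (fun v => ∃ y : β → M, R' (Sum.elim v y)) := by
  obtain ⟨φ, h1, h2⟩ := h
  refine ⟨Formula.iExs β φ, fun v => ?_, fun v => ?_⟩
  · rw [Formula.realize_iExs]
    exact exists_congr fun y => h1 _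
  · rw [Formula.realize_iExs]
    exact exists_congr fun y => h2 _

theorem UD.ex1 {R : (α → N) → N → Prop} {R' : (α → M) → M → Prop}
    (h : UD L (fun w : α ⊕ Unit → N => R (w ∘ Sum.inl) (w (Sum.inr ())))
      (fun w : α ⊕ Unit → M => R' (w ∘ Sum.inl) (w (Sum.inr ())))) :
    UD L (fun v => ∃ y, R v y) (fun v => ∃ y, R' v y) := by
  refine h.ex.congr (fun v => ?_) (fun v => ?_)
  · constructor
    · rintro ⟨y, hy⟩; exact ⟨y (), hy⟩
    · rintro ⟨y, hy⟩; exact ⟨fun _ => y, hy⟩
  · constructor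
    · rintro ⟨y, hy⟩; exact ⟨y (), hy⟩
    · rintro ⟨y, hy⟩; exact ⟨fun _ => y, hy⟩

theorem UD.all1 {R : (α → N) → N → Prop} {R' : (α → M) → M → Prop}
    (h : UD L (fun w : α ⊕ Unit → N => R (w ∘ Sum.inl) (w (Sum.inr ())))
      (fun w : α ⊕ Unit → M => R' (w ∘ Sum.inl) (w (Sum.inr ())))) :
    UD L (fun v => ∀ y, R v y) (fun v => ∀ y, R' v y) := by
  refine (UD.ex1 (R := fun v y => ¬ R v y) (R' := fun v y => ¬ R' v y) h.not).not.congr
    (fun v => ?_) (fun v => ?_)
  · push Not; rfl
  · push Not; rfl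

/-- finite conjunctions -/
theorem UD.fin {n : ℕ} {R : Fin n → (α → N) → Prop} {R' : Fin n → (α → M) → Prop}
    (h : ∀ i, UD L (R i) (R' i)) : UD L (fun v => ∀ i, R i v) (fun v => ∀ i, R' i v) := by
  induction n with
  | zero =>
    refine UD.false.not.congr (fun v => ?_) (fun v => ?_)
    · simp
    · simp
  | succ n ih =>
    refine ((h 0).and (ih fun i => h i.succ)).congr (fun v => ?_) (fun v => ?_)
    · exact (Fin.forall_fin_succ (P := fun i => R i v)).symm
    · exact (Fin.forall_fin_succ (P := fun i => R' i v)).symm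

/-- transfer of sentences -/
theorem UD.transfer [Nonempty M] [Nonempty N] (hMN : M ≅[L] N) {P P' : Prop} {α : Type} [IsEmpty α]
    (h : UD L (fun _ : α → N => P) (fun _ : α → M => P')) : P ↔ P' := by
  obtain ⟨φ, h1, h2⟩ := h
  let e : α → Empty := fun a => isEmptyElim a
  let σ : L.Sentence := φ.relabel e
  have h3 : N ⊨ σ ↔ P := by
    show (φ.relabel e).Realize _ ↔ _
    rw [Formula.realize_relabel, h1]
  have h4 : M ⊨ σ ↔ P' := by
    show (φ.relabel e).Realize _ ↔ _
    rw [Formula.realize_relabel, h2]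
  rw [← h3, ← h4]
  exact (hMN.realize_sentence σ).symm

end

/-! ### translation -/

section tr
variable {L1 L2 : FirstOrder.Language.{0, 0}} {N M : Type} [L1.Structure N] [L1.Structure M]
  [L2.Structure N] [L2.Structure M]

/-- the symbols of `L1` are uniformly definable in `L2` -/
structure Trn (L1 L2 : FirstOrder.Language.{0, 0}) (N M : Type) [L1.Structure N] [L1.Structure M]
    [L2.Structure N] [L2.Structure M] : Prop where
  fn : ∀ (n : ℕ) (f : L1.Functions n), UD L2
    (fun w : Unit ⊕ Fin n → N => w (Sum.inl ()) = Structure.funMap f (w ∘ Sum.inr))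
    (fun w : Unit ⊕ Fin n → M => w (Sum.inl ()) = Structure.funMap f (w ∘ Sum.inr))
  rl : ∀ (n : ℕ) (r : L1.Relations n), UD L2
    (fun w : Fin n → N => Structure.RelMap r w) (fun w : Fin n → M => Structure.RelMap r w)

theorem Trn.term (h : Trn L1 L2 N M) {γ : Type} (t : L1.Term γ) : UD L2
    (fun w : Unit ⊕ γ → N => w (Sum.inl ()) = t.realize (w ∘ Sum.inr))
    (fun w : Unit ⊕ γ → M => w (Sum.inl ()) = t.realize (w ∘ Sum.inr)) := by
  induction t with
  | var a => exact UD.eq (Sum.inl ()) (Sum.inr a)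
  | @func n f ts ih =>
    -- `∃ y, (∀ i, y i = ts i) ∧ w (inl ()) = f y`
    have h1 : UD L2
        (fun w : (Unit ⊕ γ) ⊕ Fin n → N => ∀ i : Fin n, w (Sum.inr i) =
          (ts i).realize (w ∘ Sum.inl ∘ Sum.inr))
        (fun w : (Unit ⊕ γ) ⊕ Fin n → M => ∀ i : Fin n, w (Sum.inr i) =
          (ts i).realize (w ∘ Sum.inl ∘ Sum.inr)) := by
      refine UD.fin fun i => ?_
      exact (ih i).relabel (β := (Unit ⊕ γ) ⊕ Fin n)
        (Sum.elim (fun _ => Sum.inr i) (Sum.inl ∘ Sum.inr))
    have h2 : UD L2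
        (fun w : (Unit ⊕ γ) ⊕ Fin n → N => w (Sum.inl (Sum.inl ())) =
          Structure.funMap f (w ∘ Sum.inr))
        (fun w : (Unit ⊕ γ) ⊕ Fin n → M => w (Sum.inl (Sum.inl ())) =
          Structure.funMap f (w ∘ Sum.inr)) :=
      (h.fn n f).relabel (β := (Unit ⊕ γ) ⊕ Fin n)
        (Sum.elim (fun _ => Sum.inl (Sum.inl ())) Sum.inr)
    refine (h1.and h2).ex.congr (fun v => ?_) (fun v => ?_)
    · constructor
      · rintro ⟨y, hy, hz⟩
        have hy' : y = fun i => (ts i).realize (v ∘ Sum.inr) := funext hy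
        have hz' : v (Sum.inl ()) = Structure.funMap f y := hz
        rw [hz', hy']
        rfl
      · intro hv
        exact ⟨fun i => (ts i).realize (v ∘ Sum.inr), fun i => rfl, hv⟩
    · constructor
      · rintro ⟨y, hy, hz⟩
        have hy' : y = fun i => (ts i).realize (v ∘ Sum.inr) := funext hy
        have hz' : v (Sum.inl ()) = Structure.funMap f y := hz
        rw [hz', hy']
        rfl
      · intro hv
        exact ⟨fun i => (ts i).realize (v ∘ Sum.inr), fun i => rfl, hv⟩

theorem Trn.bdd (h : Trn L1 L2 N M) {α : Type} {n : ℕ} (φ : L1.BoundedFormula α n) : UD L2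
    (fun w : α ⊕ Fin n → N => φ.Realize (w ∘ Sum.inl) (w ∘ Sum.inr))
    (fun w : α ⊕ Fin n → M => φ.Realize (w ∘ Sum.inl) (w ∘ Sum.inr)) := by
  have hel : ∀ {K : Type} {n : ℕ} (w : α ⊕ Fin n → K),
      Sum.elim (w ∘ Sum.inl) (w ∘ Sum.inr) = w := by
    intro K n w
    funext x
    cases x <;> rfl
  induction φ with
  | falsum => exact UD.false
  | @equal n t1 t2 =>
    have h1 := (h.term t1).relabel (β := (α ⊕ Fin n) ⊕ Unit)
      (Sum.elim (fun _ => Sum.inr ()) Sum.inl)
    have h2 := (h.term t2).relabel (β := (α ⊕ Fin n) ⊕ Unit)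
      (Sum.elim (fun _ => Sum.inr ()) Sum.inl)
    refine (h1.and h2).ex.congr (fun v => ?_) (fun v => ?_)
    · show _ ↔ t1.realize (Sum.elim (v ∘ Sum.inl) (v ∘ Sum.inr)) =
        t2.realize (Sum.elim (v ∘ Sum.inl) (v ∘ Sum.inr))
      rw [hel]
      constructor
      · rintro ⟨y, hy, hz⟩
        have hy' : y () = t1.realize v := hy
        have hz' : y () = t2.realize v := hz
        rw [← hy', hz']
      · intro hv
        exact ⟨fun _ => t1.realize v, rfl, hv⟩
    · show _ ↔ t1.realize (Sum.elim (v ∘ Sum.inl) (v ∘ Sum.inr)) =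
        t2.realize (Sum.elim (v ∘ Sum.inl) (v ∘ Sum.inr))
      rw [hel]
      constructor
      · rintro ⟨y, hy, hz⟩
        have hy' : y () = t1.realize v := hy
        have hz' : y () = t2.realize v := hz
        rw [← hy', hz']
      · intro hv
        exact ⟨fun _ => t1.realize v, rfl, hv⟩
  | @rel n l r ts =>
    have h1 : UD L2
        (fun w : (α ⊕ Fin n) ⊕ Fin l → N => ∀ i : Fin l, w (Sum.inr i) =
          (ts i).realize (w ∘ Sum.inl))
        (fun w : (α ⊕ Fin n) ⊕ Fin l → M => ∀ i : Fin l, w (Sum.inr i) =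
          (ts i).realize (w ∘ Sum.inl)) := by
      refine UD.fin fun i => ?_
      exact (h.term (ts i)).relabel (β := (α ⊕ Fin n) ⊕ Fin l)
        (Sum.elim (fun _ => Sum.inr i) Sum.inl)
    have h2 := (h.rl l r).relabel (β := (α ⊕ Fin n) ⊕ Fin l) Sum.inr
    refine (h1.and h2).ex.congr (fun v => ?_) (fun v => ?_)
    · show _ ↔ Structure.RelMap r (fun i =>
        (ts i).realize (Sum.elim (v ∘ Sum.inl) (v ∘ Sum.inr)))
      rw [hel]
      constructor
      · rintro ⟨y, hy, hz⟩
        have hy' : y = fun i => (ts i).realize v := funext hy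
        have hz' : Structure.RelMap r y := hz
        rwa [hy'] at hz'
      · intro hv
        exact ⟨fun i => (ts i).realize v, fun i => rfl, hv⟩
    · show _ ↔ Structure.RelMap r (fun i =>
        (ts i).realize (Sum.elim (v ∘ Sum.inl) (v ∘ Sum.inr)))
      rw [hel]
      constructor
      · rintro ⟨y, hy, hz⟩
        have hy' : y = fun i => (ts i).realize v := funext hy
        have hz' : Structure.RelMap r y := hz
        rwa [hy'] at hz'
      · intro hv
        exact ⟨fun i => (ts i).realize v, fun i => rfl, hv⟩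
  | imp φ ψ ih1 ih2 => exact ih1.imp ih2
  | @all n φ ih =>
    let g : α ⊕ Fin (n + 1) → (α ⊕ Fin n) ⊕ Unit :=
      Sum.elim (fun a => Sum.inl (Sum.inl a))
        (Fin.snoc (α := fun _ => (α ⊕ Fin n) ⊕ Unit) (fun i => Sum.inl (Sum.inr i)) (Sum.inr ()))
    have key : ∀ {K : Type} (v : α ⊕ Fin n → K) (y : K),
        (Sum.elim v (fun _ : Unit => y)) ∘ g ∘ Sum.inr =
          (Fin.snoc (v ∘ Sum.inr) y : Fin (n + 1) → K) := by
      intro K v y
      funext i
      refine Fin.lastCases ?_ (fun i => ?_) i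
      · simp [g]
      · simp [g]
    have h1 := ih.relabel (β := (α ⊕ Fin n) ⊕ Unit) g
    refine (UD.all1 (R := fun v y => φ.Realize (v ∘ Sum.inl) (Fin.snoc (v ∘ Sum.inr) y))
      (R' := fun v y => φ.Realize (v ∘ Sum.inl) (Fin.snoc (v ∘ Sum.inr) y)) ?_)
    refine h1.congr (fun w => ?_) (fun w => ?_)
    · have e1 : w = Sum.elim (w ∘ Sum.inl) (fun _ : Unit => w (Sum.inr ())) := by
        funext x
        rcases x with x | x <;> rfl
      rw [e1]
      refine iff_of_eq (congrArg₂ (fun a b => φ.Realize a b) rfl ?_)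
      exact key (w ∘ Sum.inl) (w (Sum.inr ()))
    · have e1 : w = Sum.elim (w ∘ Sum.inl) (fun _ : Unit => w (Sum.inr ())) := by
        funext x
        rcases x with x | x <;> rfl
      rw [e1]
      refine iff_of_eq (congrArg₂ (fun a b => φ.Realize a b) rfl ?_)
      exact key (w ∘ Sum.inl) (w (Sum.inr ()))

theorem Trn.formula (h : Trn L1 L2 N M) {α : Type} (φ : L1.Formula α) : UD L2
    (fun w : α → N => φ.Realize w) (fun w : α → M => φ.Realize w) := by
  refine ((h.bdd φ).relabel (β := α) (Sum.elim id (fun i => i.elim0))).congr (fun v => ?_)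
    (fun v => ?_)
  · refine iff_of_eq (congrArg₂ (fun a b => BoundedFormula.Realize φ a b) rfl ?_)
    exact Subsingleton.elim _ _
  · refine iff_of_eq (congrArg₂ (fun a b => BoundedFormula.Realize φ a b) rfl ?_)
    exact Subsingleton.elim _ _

/-- elementary equivalence passes to the translated language -/
theorem Trn.ee (h : Trn L1 L2 N M) [Nonempty M] [Nonempty N] (hMN : M ≅[L2] N) : M ≅[L1] N := by
  rw [elementarilyEquivalent_iff]
  intro σ
  have := UD.transfer (α := Empty) hMN (P := N ⊨ σ) (P' := M ⊨ σ) (by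
    refine (h.formula σ).congr (fun v => ?_) (fun v => ?_)
    · rw [Subsingleton.elim v default]; rfl
    · rw [Subsingleton.elim v default]; rfl)
  exact this.symm

end tr

end Pool.Agent.Run7.h57.MUB
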