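import Pool.Agent.Run7.h57.MUB.N3
import Pool.Agent.Run7.h57.MUB.UD
import Pool.Agent.H623R3.JC.P_NPA

/-!
From the main theorem to the frozen statement.
-/

set_option autoImplicit false
set_option linter.unusedSectionVars false

open FirstOrder FirstOrder.Language

namespace Pool.Agent.Run7.h57.MUB

open Encodable Pool.Agent.Helper578.JD Pool.Agent.Helper578.JD.Oracle Pool.Agent.Helper578.JD.Defs
open Pool.Agent.Helper578.JD.RE Pool.Agent.H623R3.JC Pool.Agent.Helper227.EN

/-- the relational language with the graphs of addition and multiplication -/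
abbrev L0 : FirstOrder.Language.{0, 0} :=
  Language.mk (fun _ => Empty) (fun a => Fin (if a = 3 then 2 else 0))

/-- `K` is the relational structure of the operations `p`, `q` -/
def Ops (K : Type) [L0.Structure K] (p q : K → K → K) : Prop :=
  ∀ (n : ℕ) (r : L0.Relations n) (xs : Fin n → K),
    Structure.RelMap r xs ↔
      ∃ i j k : Fin n, i.val = 0 ∧ j.val = 1 ∧ k.val = 2 ∧
        ((Fin.val r = 0 ∧ p (xs i) (xs j) = xs k) ∨ (Fin.val r = 1 ∧ q (xs i) (xs j) = xs k))

/-- symbols -/
def rA : L0.Relations 3 := (⟨0, by decide⟩ : Fin (if 3 = 3 then 2 else 0))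
def rM : L0.Relations 3 := (⟨1, by decide⟩ : Fin (if 3 = 3 then 2 else 0))

theorem Ops.add {K : Type} [L0.Structure K] {p q : K → K → K} (h : Ops K p q) (w : Fin 3 → K) :
    Structure.RelMap rA w ↔ p (w 0) (w 1) = w 2 := by
  rw [h 3 rA w]
  constructor
  · rintro ⟨i, j, k, hi, hj, hk, ⟨-, h1⟩ | ⟨h1, -⟩⟩
    · have e1 : i = 0 := Fin.ext hi
      have e2 : j = 1 := Fin.ext hj
      have e3 : k = 2 := Fin.ext hk
      rwa [e1, e2, e3] at h1
    · exact absurd h1 (by decide)
  · intro h1
    exact ⟨0, 1, 2, rfl, rfl, rfl, Or.inl ⟨rfl, h1⟩⟩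

theorem Ops.mul {K : Type} [L0.Structure K] {p q : K → K → K} (h : Ops K p q) (w : Fin 3 → K) :
    Structure.RelMap rM w ↔ q (w 0) (w 1) = w 2 := by
  rw [h 3 rM w]
  constructor
  · rintro ⟨i, j, k, hi, hj, hk, ⟨h1, -⟩ | ⟨-, h1⟩⟩
    · exact absurd h1 (by decide)
    · have e1 : i = 0 := Fin.ext hi
      have e2 : j = 1 := Fin.ext hj
      have e3 : k = 2 := Fin.ext hk
      rwa [e1, e2, e3] at h1
  · intro h1
    exact ⟨0, 1, 2, rfl, rfl, rfl, Or.inr ⟨rfl, h1⟩⟩

section
variable {N M : Type} [L0.Structure N] [L0.Structure M] {p q : N → N → N} {p' q' : M → M → M}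

theorem ud_add (hN : Ops N p q) (hM : Ops M p' q') {α : Type} (a b c : α) :
    UD L0 (fun v : α → N => p (v a) (v b) = v c) (fun v : α → M => p' (v a) (v b) = v c) := by
  refine ⟨Relations.formula rA ![Term.var a, Term.var b, Term.var c], fun v => ?_, fun v => ?_⟩
  · rw [Formula.realize_rel, hN.add]
    simp
  · rw [Formula.realize_rel, hM.add]
    simp

theorem ud_mul (hN : Ops N p q) (hM : Ops M p' q') {α : Type} (a b c : α) :
    UD L0 (fun v : α → N => q (v a) (v b) = v c) (fun v : α → M => q' (v a) (v b) = v c) := by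
  refine ⟨Relations.formula rM ![Term.var a, Term.var b, Term.var c], fun v => ?_, fun v => ?_⟩
  · rw [Formula.realize_rel, hN.mul]
    simp
  · rw [Formula.realize_rel, hM.mul]
    simp

/-- the zero element exists -/
theorem tr_zero [Nonempty N] [Nonempty M] (hN : Ops N p q) (hM : Ops M p' q') (h : M ≅[L0] N)
    (h0 : ∃ x : N, p x x = x ∧ ∀ y, p y y = y → y = x) :
    ∃ x : M, p' x x = x ∧ ∀ y, p' y y = y → y = x := by
  refine (UD.transfer (α := Empty) h
    (P := ∃ x : N, p x x = x ∧ ∀ y, p y y = y → y = x) ?_).1 h0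
  refine UD.ex1 (R := fun _ x => p x x = x ∧ ∀ y, p y y = y → y = x)
    (R' := fun _ x => p' x x = x ∧ ∀ y, p' y y = y → y = x) ?_
  refine (ud_add hN hM _ _ _).and ?_
  refine UD.all1 (R := fun w y => p y y = y → y = w (Sum.inr ()))
    (R' := fun w y => p' y y = y → y = w (Sum.inr ())) ?_
  exact (ud_add hN hM _ _ _).imp (UD.eq _ (Sum.inl (Sum.inr ())))

theorem tr_one [Nonempty N] [Nonempty M] (hN : Ops N p q) (hM : Ops M p' q') (h : M ≅[L0] N)
    (h0 : ∃ x : N, (q x x = x ∧ ¬ p x x = x) ∧ ∀ y, (q y y = y ∧ ¬ p y y = y) → y = x) :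
    ∃ x : M, (q' x x = x ∧ ¬ p' x x = x) ∧ ∀ y, (q' y y = y ∧ ¬ p' y y = y) → y = x := by
  refine (UD.transfer (α := Empty) h
    (P := ∃ x : N, (q x x = x ∧ ¬ p x x = x) ∧ ∀ y, (q y y = y ∧ ¬ p y y = y) → y = x) ?_).1 h0
  refine UD.ex1 (R := fun _ x => (q x x = x ∧ ¬ p x x = x) ∧
      ∀ y, (q y y = y ∧ ¬ p y y = y) → y = x)
    (R' := fun _ x => (q' x x = x ∧ ¬ p' x x = x) ∧
      ∀ y, (q' y y = y ∧ ¬ p' y y = y) → y = x) ?_
  refine ((ud_mul hN hM _ _ _).and (ud_add hN hM _ _ _).not).and ?_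
  refine UD.all1 (R := fun w y => (q y y = y ∧ ¬ p y y = y) → y = w (Sum.inr ()))
    (R' := fun w y => (q' y y = y ∧ ¬ p' y y = y) → y = w (Sum.inr ())) ?_
  exact ((ud_mul hN hM _ _ _).and (ud_add hN hM _ _ _).not).imp (UD.eq _ (Sum.inl (Sum.inr ())))

end

/-- the structure for the language of arithmetic -/
@[reducible] def laStr {M : Type} (p q : M → M → M) (z o : M) : LA.Structure M where
  funMap := fun {n} f => match n, f with
    | _, AF.zero => fun _ => z
    | _, AF.one => fun _ => o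
    | _, AF.add => fun v => p (v 0) (v 1)
    | _, AF.mul => fun v => q (v 0) (v 1)
  RelMap := fun {n} r => match n, r with
    | _, AR.lt => fun v => ∃ w, ¬ p w w = w ∧ p (v 0) w = v 1

theorem trn_la [L0.Structure ℕ] {M : Type} [L0.Structure M] {p q : M → M → M}
    (hN : Ops ℕ (· + ·) (· * ·)) (hM : Ops M p q) {z o : M}
    (hz : p z z = z ∧ ∀ y, p y y = y → y = z)
    (ho : (q o o = o ∧ ¬ p o o = o) ∧ ∀ y, (q y y = y ∧ ¬ p y y = y) → y = o) :
    @Trn LA L0 ℕ M stdStr (laStr p q z o) _ _ := by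
  let _ : LA.Structure ℕ := stdStr
  let _ : LA.Structure M := laStr p q z o
  refine ⟨fun n f => ?_, fun n r => ?_⟩
  · cases f with
    | zero =>
      refine (ud_add hN hM (Sum.inl ()) (Sum.inl ()) (Sum.inl ())).congr (fun v => ?_) (fun v => ?_)
      · show v (Sum.inl ()) + v (Sum.inl ()) = v (Sum.inl ()) ↔ v (Sum.inl ()) = 0
        omega
      · show _ ↔ v (Sum.inl ()) = z
        exact ⟨hz.2 _, fun e => by rw [e]; exact hz.1⟩
    | one =>
      refine ((ud_mul hN hM (Sum.inl ()) (Sum.inl ()) (Sum.inl ())).and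
        (ud_add hN hM (Sum.inl ()) (Sum.inl ()) (Sum.inl ())).not).congr (fun v => ?_) (fun v => ?_)
      · show (v (Sum.inl ()) * v (Sum.inl ()) = v (Sum.inl ()) ∧
          ¬ v (Sum.inl ()) + v (Sum.inl ()) = v (Sum.inl ())) ↔ v (Sum.inl ()) = 1
        constructor
        · rintro ⟨h1, h2⟩
          have h3 : v (Sum.inl ()) ≠ 0 := by omega
          exact Nat.eq_of_mul_eq_mul_right (Nat.pos_of_ne_zero h3) (by rw [h1, one_mul])
        · intro h1
          rw [h1]
          omega
      · show _ ↔ v (Sum.inl ()) = o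
        exact ⟨ho.2 _, fun e => by rw [e]; exact ho.1⟩
    | add =>
      refine (ud_add hN hM (Sum.inr 0) (Sum.inr 1) (Sum.inl ())).congr (fun v => ?_) (fun v => ?_)
      · exact eq_comm
      · exact eq_comm
    | mul =>
      refine (ud_mul hN hM (Sum.inr 0) (Sum.inr 1) (Sum.inl ())).congr (fun v => ?_) (fun v => ?_)
      · exact eq_comm
      · exact eq_comm
  · cases r with
    | lt =>
      refine (UD.ex1 (R := fun (v : Fin 2 → ℕ) w => ¬ w + w = w ∧ v 0 + w = v 1)
        (R' := fun (v : Fin 2 → M) w => ¬ p w w = w ∧ p (v 0) w = v 1) ?_).congr (fun v => ?_)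
        (fun v => ?_)
      · exact (ud_add hN hM _ _ _).not.and (ud_add hN hM (Sum.inl 0) _ (Sum.inl 1))
      · show _ ↔ v 0 < v 1
        constructor
        · rintro ⟨w, h1, h2⟩; omega
        · intro h1; exact ⟨v 1 - v 0, by omega, by omega⟩
      · exact Iff.rfl

theorem trn_l0 [L0.Structure ℕ] {M : Type} [L0.Structure M] {p q : M → M → M}
    (hN : Ops ℕ (· + ·) (· * ·)) (hM : Ops M p q) {z o : M} :
    @Trn L0 LA ℕ M _ _ stdStr (laStr p q z o) := by
  let _ : LA.Structure ℕ := stdStr
  let _ : LA.Structure M := laStr p q z o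
  have hadd : ∀ {α : Type} (s t : LA.Term α) (v : α → M), (tadd s t).realize v =
      p (s.realize v) (t.realize v) := by
    intro α s t v
    exact Term.realize_functions_apply₂ (L := LA) (f := AF.add)
  have hmul : ∀ {α : Type} (s t : LA.Term α) (v : α → M), (tmul s t).realize v =
      q (s.realize v) (t.realize v) := by
    intro α s t v
    exact Term.realize_functions_apply₂ (L := LA) (f := AF.mul)
  have haddN : ∀ {α : Type} (s t : LA.Term α) (v : α → ℕ), (tadd s t).realize v =
      s.realize v + t.realize v := by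
    intro α s t v
    exact Term.realize_functions_apply₂ (L := LA) (f := AF.add)
  have hmulN : ∀ {α : Type} (s t : LA.Term α) (v : α → ℕ), (tmul s t).realize v =
      s.realize v * t.realize v := by
    intro α s t v
    exact Term.realize_functions_apply₂ (L := LA) (f := AF.mul)
  refine ⟨fun n f => Empty.elim f, fun n r => ?_⟩
  by_cases hn : n = 3
  · subst hn
    have hr : r = rA ∨ r = rM := by
      have h1 : Fin.val r < 2 := r.isLt
      rcases Nat.lt_succ_iff_lt_or_eq.1 h1 with h2 | h2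
      · left
        exact Fin.ext (by show Fin.val r = 0; omega)
      · right
        exact Fin.ext (by show Fin.val r = 1; omega)
    rcases hr with rfl | rfl
    · refine ⟨Term.equal (tadd (Term.var 0) (Term.var 1)) (Term.var 2), fun v => ?_, fun v => ?_⟩
      · rw [Formula.realize_equal, haddN]
        exact (hN.add v).symm
      · rw [Formula.realize_equal, hadd]
        exact (hM.add v).symm
    · refine ⟨Term.equal (tmul (Term.var 0) (Term.var 1)) (Term.var 2), fun v => ?_, fun v => ?_⟩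
      · rw [Formula.realize_equal, hmulN]
        exact (hN.mul v).symm
      · rw [Formula.realize_equal, hmul]
        exact (hM.mul v).symm
  · exfalso
    have h1 : Fin.val r < (if n = 3 then 2 else 0) := r.isLt
    exact Nat.not_lt_zero _ (lt_of_lt_of_eq h1 (if_neg hn))

end Pool.Agent.Run7.h57.MUB
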