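import Pool.Agent.Run7.h57.MUB.Bridge

/-!
From the main theorem to the frozen statement: the theorem.
-/

set_option autoImplicit false
set_option linter.unusedSectionVars false

open FirstOrder FirstOrder.Language

namespace Pool.Agent.Run7.h57.MUB

open Encodable Pool.Agent.Helper578.JD Pool.Agent.Helper578.JD.Oracle Pool.Agent.Helper578.JD.Defs
open Pool.Agent.Helper578.JD.RE Pool.Agent.H623R3.JC Pool.Agent.Helper227.EN

theorem std_minus : @Theory.Model LA ℕ stdStr PAminus := by
  let i : LA.Structure ℕ := stdStr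
  change ℕ ⊨ PAminus
  simp only [PAminus, axAddAssoc, axAddComm, axMulAssoc, axMulComm, axDistrib, axAddZero, axMulZero, axMulOne, axLtTrans, axLtIrrefl, axLtTotal, axAddLt, axMulLt, axDiff, axZeroLtOne, axDiscrete, axNonneg, Theory.model_iff, Set.mem_insert_iff, Set.mem_singleton_iff,
    forall_eq_or_imp, forall_eq, Sentence.Realize, Formula.Realize, BoundedFormula.realize_all,
    BoundedFormula.realize_bdEqual, BoundedFormula.realize_imp, BoundedFormula.realize_not,
    BoundedFormula.realize_sup, BoundedFormula.realize_ex, ea_t0, ea_t1, ea_tadd, ea_tmul, ea_flt,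
    Term.realize_var, Sum.elim_inr]
  refine ⟨fun x y z => ?_, fun x y => ?_, fun x y z => ?_, fun x y => ?_, fun x y z => ?_,
    fun x => ?_, fun x => ?_, fun x => ?_, fun x y z h1 h2 => ?_, fun x h => ?_, fun x y => ?_,
    fun x y z h => ?_, fun x y z h h' => ?_, fun x y h => ?_, ?_, fun x h => ?_, fun x => ?_⟩
  · exact Nat.add_assoc x y z
  · exact Nat.add_comm x y
  · exact Nat.mul_assoc x y z
  · exact Nat.mul_comm x y
  · exact Nat.mul_add x y z
  · exact Nat.add_zero x
  · exact Nat.mul_zero x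
  · exact Nat.mul_one x
  · exact Nat.lt_trans (n := x) (m := y) (k := z) h1 h2
  · exact Nat.lt_irrefl x h
  · exact Nat.lt_trichotomy x y
  · exact Nat.add_lt_add_right (n := x) (m := y) h z
  · exact Nat.mul_lt_mul_of_pos_right (n := x) (m := y) h' h
  · have h' : x < y := h
    exact ⟨y - x, Nat.add_sub_of_le h'.le⟩
  · exact Nat.zero_lt_one
  · have h' : 0 < x := h
    exact Nat.lt_or_eq_of_le (n := 1) (m := x) h'
  · have : 0 < x ∨ 0 = x := by omega
    exact this

/-- the standard model is a model of PA -/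
theorem std_pa : @Theory.Model LA ℕ stdStr PA := by
  let i : LA.Structure ℕ := stdStr
  change ℕ ⊨ PA
  rw [Theory.model_iff]
  intro σ hσ
  rcases hσ with hσ | ⟨n, φ, rfl⟩
  · exact (Theory.model_iff _).1 std_minus σ hσ
  · rw [realize_indAx φ (0 : ℕ) (1 : ℕ) rfl rfl]
    intro y h0 hs x
    induction x with
    | zero => exact h0
    | succ x ih => exact hs x ih

/-- a function as an oracle, and its graph -/
theorem chi_graph_le (D : ℕ → ℕ) :
    TuringReducible (chi {n | D n.unpair.1 = n.unpair.2}) (PFun.lift D) := by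
  rw [TuringReducible, RecursiveIn.iff_nat]
  let O : Set (ℕ →. ℕ) := {PFun.lift D}
  have h1 : Nat.RecursiveIn O (PFun.lift D) := Nat.RecursiveIn.oracle _ rfl
  have hl : Nat.RecursiveIn O fun n : ℕ => Part.some n.unpair.1 :=
    Nat.Partrec.recursiveIn (Partrec.nat_iff.1 (Computable.fst.comp Computable.unpair))
  have hr : Nat.RecursiveIn O fun n : ℕ => Part.some n.unpair.2 :=
    Nat.Partrec.recursiveIn (Partrec.nat_iff.1 (Computable.snd.comp Computable.unpair))
  have h2 : Nat.RecursiveIn O fun n : ℕ => Part.some (D n.unpair.1) :=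
    (Nat.RecursiveIn.comp h1 hl).of_eq fun n => by
      exact Part.bind_some _ _
  have h3 : Nat.RecursiveIn O fun n : ℕ => Part.some (Nat.pair (D n.unpair.1) n.unpair.2) :=
    (Nat.RecursiveIn.pair h2 hr).of_eq fun n => by simp [Seq.seq]
  have h4 : Nat.RecursiveIn O fun m : ℕ => Part.some (if m.unpair.1 = m.unpair.2 then 1 else 0) := by
    refine Nat.Partrec.recursiveIn (Partrec.nat_iff.1 ?_)
    have : Computable fun m : ℕ => (if m.unpair.1 = m.unpair.2 then 1 else 0 : ℕ) :=
      (Primrec.ite (Primrec.eq.comp (Primrec.fst.comp Primrec.unpair)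
        (Primrec.snd.comp Primrec.unpair)) (Primrec.const 1) (Primrec.const 0)).to_comp
    exact this
  refine (Nat.RecursiveIn.comp h4 h3).of_eq fun n => ?_
  simp only [Part.bind_eq_bind, Part.bind_some, Nat.unpair_pair, chi, chiN, Set.mem_ofPred_eq]
  by_cases h : D n.unpair.1 = n.unpair.2
  · rw [if_pos h, if_pos h]
  · rw [if_neg h, if_neg h]

theorem lift_le_of {A : Set ℕ} {D : ℕ → ℕ} (h : CompIn A D) :
    TuringReducible (PFun.lift D) (chi A) := turingReducible_fun_iff.2 h

theorem lift_chiN (B : Set ℕ) : (PFun.lift (chiN B) : ℕ →. ℕ) = chi B := rfl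

/-- For a nonstandard model `M` of true arithmetic with universe numbered by `e`, whose diagram is
given by `D`, there is a function `g`, computable from `D`, which computes all the arithmetical sets
and does not compute `D`. -/
theorem no_min [L0.Structure ℕ] (hN : Ops ℕ (· + ·) (· * ·)) (M : Type) [L0.Structure M]
    (e : M ≃ ℕ) (p q : M → M → M) (hM : Ops M p q) (D : ℕ → ℕ)
    (hD : D = (fun m : ℕ => Nat.pair (e (p (e.symm m.unpair.1) (e.symm m.unpair.2)))
      (e (q (e.symm m.unpair.1) (e.symm m.unpair.2)))))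
    (hEE : L0.ElementarilyEquivalent M ℕ) (hNI : IsEmpty (L0.Equiv M ℕ)) :
    ∃ B : Set ℕ, TuringReducible (chi B) (PFun.lift D) ∧
      (∀ S : Set ℕ, (∅ : Set ℕ).Definable L0 {v : Fin 1 → ℕ | v 0 ∈ S} → Red S B) ∧
      ¬ TuringReducible (PFun.lift D) (chi B) := by
  have : Nonempty M := ⟨e.symm 0⟩
  obtain ⟨z, hz⟩ := tr_zero hN hM hEE ⟨0, rfl, fun y hy => by simpa using hy⟩
  obtain ⟨o, ho⟩ := tr_one hN hM hEE ⟨1, ⟨rfl, by norm_num⟩, fun y hy => by
    obtain ⟨h1, h2⟩ := hy
    have h1' : y * y = y := h1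
    have h2' : ¬ y + y = y := h2
    have h3 : y ≠ 0 := by omega
    exact Nat.eq_of_mul_eq_mul_right (Nat.pos_of_ne_zero h3) (by rw [h1', one_mul])⟩
  let iN : LA.Structure ℕ := stdStr
  let iM : LA.Structure M := laStr p q z o
  have hT1 : Trn LA L0 ℕ M := trn_la hN hM hz ho
  have hT2 : Trn L0 LA ℕ M := trn_l0 hN hM
  have hEE' : M ≅[LA] ℕ := hT1.ee hEE
  have hPA : M ⊨ PA := by
    rw [Theory.model_iff]
    intro σ hσ
    exact (hEE'.realize_sentence σ).2 ((Theory.model_iff _).1 std_pa σ hσ)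
  have hne : ¬ Nonempty (@FirstOrder.Language.Equiv LA M ℕ _ stdStr) := by
    rintro ⟨f⟩
    have hf1 : ∀ x y : M, f (p x y) = f x + f y := fun x y =>
      f.map_fun (AF.add : LA.Functions 2) ![x, y]
    have hf2 : ∀ x y : M, f (q x y) = f x * f y := fun x y =>
      f.map_fun (AF.mul : LA.Functions 2) ![x, y]
    refine hNI.false ⟨f.toEquiv, fun {n} g _ => Empty.elim g, fun {n} r x => ?_⟩
    have h1 := hN n r (f.toEquiv ∘ x)
    have h2 := hM n r x
    refine h1.trans (Iff.trans ?_ h2.symm)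
    refine exists_congr fun i => exists_congr fun j => exists_congr fun k =>
      and_congr_right fun _ => and_congr_right fun _ => and_congr_right fun _ =>
        or_congr (and_congr_right fun _ => ?_) (and_congr_right fun _ => ?_)
    · show f (x i) + f (x j) = f (x k) ↔ _
      rw [← hf1]
      exact f.injective.eq_iff
    · show f (x i) * f (x j) = f (x k) ↔ _
      rw [← hf2]
      exact f.injective.eq_iff
  obtain ⟨i1, i2, i3, i4, hNPA, -⟩ := prf_npa M hPA hne
  have hC := hNPA.compat
  have hpadd : ∀ x y : M, p x y = x + y := fun x y => hC.add x y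
  have hqmul : ∀ x y : M, q x y = x * y := fun x y => hC.mul x y
  have hz0 : z = 0 := hC.zero
  have ho1 : o = 1 := hC.one
  let A : Set ℕ := {n | D n.unpair.1 = n.unpair.2}
  have hDA : CompIn A D := by
    refine (REIn.mem (f := fun x : ℕ × ℕ => Nat.pair x.1 x.2) (by fun_prop)).of_eq fun x => ?_
    show D (Nat.pair x.1 x.2).unpair.1 = (Nat.pair x.1 x.2).unpair.2 ↔ _
    rw [Nat.unpair_pair]
  let g : ℕ → M := e.symm
  have hA : DecIn A fun p => Dg g p = true := by
    have heq : ∀ (x : M) (k : ℕ), e x = k ↔ x = g k := fun x k => (e.eq_symm_apply).symm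
    have dadd : DecIn A fun x : ℕ × ℕ × ℕ => g x.1 + g x.2.1 = g x.2.2 := by
      refine (DecIn.eq (f := fun x : ℕ × ℕ × ℕ => (D (Nat.pair x.1 x.2.1)).unpair.1)
        (g := fun x => x.2.2) (ci_fst (ci_unpair (hDA.comp (by fun_prop))))
        (by fun_prop)).of_eq fun x => ?_
      rw [hD]
      simp only [Nat.unpair_pair]
      rw [hpadd]
      exact heq _ _
    have dmul : DecIn A fun x : ℕ × ℕ × ℕ => g x.1 * g x.2.1 = g x.2.2 := by
      refine (DecIn.eq (f := fun x : ℕ × ℕ × ℕ => (D (Nat.pair x.1 x.2.1)).unpair.2)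
        (g := fun x => x.2.2) (ci_snd (ci_unpair (hDA.comp (by fun_prop))))
        (by fun_prop)).of_eq fun x => ?_
      rw [hD]
      simp only [Nat.unpair_pair]
      rw [hqmul]
      exact heq _ _
    have relt : REIn A fun x : ℕ × ℕ => g x.1 < g x.2 := by
      have h1 : REIn A fun x : ℕ × ℕ => ∃ k, ¬ e 0 = k ∧ g x.1 + g k = g x.2 := by
        refine REIn.ex (S := fun (x : ℕ × ℕ) k => ¬ e 0 = k ∧ g x.1 + g k = g x.2) ?_
        refine (DecIn.and (DecIn.not (DecIn.eq (by fun_prop) (by fun_prop))) ?_).1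
        exact DecIn.comp (f := fun x : (ℕ × ℕ) × ℕ => (x.1.1, (x.2, x.1.2))) dadd (by fun_prop)
      refine h1.of_eq fun x => ?_
      rw [Pool.Agent.TH752.AR.lt_iff_ex]
      constructor
      · rintro ⟨k, hk, h2⟩
        refine ⟨g k, fun h3 => hk ((heq 0 k).2 h3.symm), h2.symm⟩
      · rintro ⟨w, hw, h2⟩
        refine ⟨e w, fun h3 => hw (e.injective h3).symm, ?_⟩
        have : g (e w) = w := e.symm_apply_apply w
        rw [this]; exact h2.symm
    have dlt : DecIn A fun x : ℕ × ℕ => g x.1 < g x.2 := by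
      refine ⟨relt, ?_⟩
      have h1 : REIn A fun x : ℕ × ℕ => g x.2 < g x.1 ∨ x.1 = x.2 := by
        refine REIn.or ?_ (DecIn.eq (by fun_prop) (by fun_prop)).1
        exact REIn.comp relt (f := fun x : ℕ × ℕ => (x.2, x.1)) (by fun_prop)
      refine h1.of_eq fun x => ?_
      rw [not_lt, le_iff_lt_or_eq]
      refine or_congr Iff.rfl ?_
      constructor
      · intro h2; rw [h2]
      · intro h2; exact (e.symm.injective h2).symm
    have key : DecIn A fun c : ℕ =>
        (c.unpair.1 = 0 ∧ g c.unpair.2.unpair.1 + g c.unpair.2.unpair.2.unpair.1 =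
          g c.unpair.2.unpair.2.unpair.2) ∨ (¬ c.unpair.1 = 0 ∧
        ((c.unpair.1 = 1 ∧ g c.unpair.2.unpair.1 * g c.unpair.2.unpair.2.unpair.1 =
          g c.unpair.2.unpair.2.unpair.2) ∨ (¬ c.unpair.1 = 1 ∧
        ((c.unpair.1 = 2 ∧ g c.unpair.2.unpair.1 < g c.unpair.2.unpair.2.unpair.1) ∨
          (¬ c.unpair.1 = 2 ∧
        ((c.unpair.1 = 3 ∧ e 0 = c.unpair.2.unpair.1) ∨ (¬ c.unpair.1 = 3 ∧
          (c.unpair.1 = 4 ∧ e 1 = c.unpair.2.unpair.1)))))))) := by
      have de : ∀ k : ℕ, DecIn A fun c : ℕ => c.unpair.1 = k := fun k =>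
        DecIn.eq (by fun_prop) (by fun_prop)
      refine DecIn.or (DecIn.and (de 0) ?_) (DecIn.and (de 0).not (DecIn.or (DecIn.and (de 1) ?_)
        (DecIn.and (de 1).not (DecIn.or (DecIn.and (de 2) ?_) (DecIn.and (de 2).not
        (DecIn.or (DecIn.and (de 3) (DecIn.eq (by fun_prop) (by fun_prop))) (DecIn.and (de 3).not
          (DecIn.and (de 4) (DecIn.eq (by fun_prop) (by fun_prop))))))))))
      · exact DecIn.comp (f := fun c : ℕ => (c.unpair.2.unpair.1,
          (c.unpair.2.unpair.2.unpair.1, c.unpair.2.unpair.2.unpair.2))) dadd (by fun_prop)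
      · exact DecIn.comp (f := fun c : ℕ => (c.unpair.2.unpair.1,
          (c.unpair.2.unpair.2.unpair.1, c.unpair.2.unpair.2.unpair.2))) dmul (by fun_prop)
      · exact DecIn.comp (f := fun c : ℕ => (c.unpair.2.unpair.1,
          c.unpair.2.unpair.2.unpair.1)) dlt (by fun_prop)
    refine key.of_eq fun c => ?_
    have ha : ∀ x y : M, Structure.funMap (L := LA) AF.add ![x, y] = x + y := hC.add
    have hm : ∀ x y : M, Structure.funMap (L := LA) AF.mul ![x, y] = x * y := hC.mul
    have hl := hC.lt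
    have h0 := hC.zero
    have h1 := hC.one
    unfold Dg
    simp only [ha, hm, hl, h0, h1]
    by_cases c0 : c.unpair.1 = 0
    · simp [c0]
    by_cases c1 : c.unpair.1 = 1
    · simp [c1]
    by_cases c2 : c.unpair.1 = 2
    · simp [c2]
    by_cases c3 : c.unpair.1 = 3
    · simp [c3, heq]
    by_cases c4 : c.unpair.1 = 4
    · simp [c4, heq]
    · simp [c0, c1, c2, c3, c4]
  obtain ⟨B, D', hB1, hB2, hB3, hB4⟩ := mainDeg' M hNPA g e.symm.surjective A hA
  have hAD : TuringReducible (chi A) (PFun.lift D) := chi_graph_le D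
  refine ⟨B, TuringReducible.trans hB1 hAD, fun S hS => ?_, fun h => ?_⟩
  · obtain ⟨φ, hφ⟩ := Set.empty_definable_iff.1 hS
    obtain ⟨ψ, h1, h2⟩ := hT2.formula φ
    have hCN : @Compat ℕ _ _ stdStr :=
      { zero := rfl, one := rfl, add := fun _ _ => rfl, mul := fun _ _ => rfl,
        lt := fun _ _ => Iff.rfl, disc := fun x hx => by omega }
    refine hB4 S (fun x => ψ.Realize fun _ => x) (dfa_of_dfn ⟨ψ.relabel fun _ => 0, fun v => ?_⟩ _)
      fun n => ?_
    · rw [Formula.realize_relabel]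
      rfl
    · let σ : LA.Sentence := BoundedFormula.subst ψ (fun _ => (num n : LA.Term Empty))
      have e1 : M ⊨ σ ↔ ψ.Realize fun _ => (n : M) := by
        have h3 : M ⊨ σ ↔ BoundedFormula.Realize ψ
            (fun a : Fin 1 => (num n : LA.Term Empty).realize (default : Empty → M)) default :=
          BoundedFormula.realize_subst
        rw [h3, npa_num hC]
        rfl
      have e2 : ℕ ⊨ σ ↔ ψ.Realize fun _ => n := by
        refine (BoundedFormula.realize_subst (L := LA) (M := ℕ) (φ := ψ)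
          (tf := fun _ => num n)).trans ?_
        refine iff_of_eq (congrArg₂ (fun a b => BoundedFormula.Realize ψ a b)
          (funext fun _ => ?_) (Subsingleton.elim _ _))
        rw [npa_num hCN, Nat.cast_id]
      rw [← e1, hEE'.realize_sentence σ, e2, h1]
      exact (Set.ext_iff.1 hφ fun _ => n).symm
  · exact hB3 (Red.trans hB2 (TuringReducible.trans hAD h))

end Pool.Agent.Run7.h57.MUB
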