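import Pool.Agent.H623R3.JC.Stmts

/-!
The main theorem on degrees of nonstandard models, as a proposition.
-/

set_option autoImplicit false

open FirstOrder FirstOrder.Language Pool.Agent.Helper227.EN

namespace Pool.Agent.Run7.h57.MUB

open Pool.Agent.Helper578.JD Pool.Agent.Helper578.JD.Oracle Pool.Agent.Helper578.JD.Defs
open Pool.Agent.H623R3.JC

/-- Main theorem: if the oracle `A` decides the diagram of a nonstandard model `M` of PA (along an
enumeration `g` of its elements), then there are sets `B` and `D` computable from `A` such that `D`
is not computable from `B` and every set of the standard system of `M` is computable from `B`. -/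
def MainDeg : Prop :=
  ∀ (M : Type) [CommSemiring M] [LinearOrder M] [IsStrictOrderedRing M] [CanonicallyOrderedAdd M]
    [LA.Structure M], NPA M → ∀ g : ℕ → M, Function.Surjective g → ∀ A : Set ℕ,
    DecIn A (fun p => Dg g p = true) →
    ∃ B D : Set ℕ, Red B A ∧ Red D A ∧ ¬ Red D B ∧ ∀ X ∈ SSp M, Red X B

end Pool.Agent.Run7.h57.MUB
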