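import Pool.Agent.Run7.h57.MUB.N2
import Pool.Agent.Run7.h57.MUB.Stmts
import Pool.Agent.H623R3.JC.P_NAMES
import Pool.Agent.H623R3.JC.P_CALC2

/-!
The construction from the diagram, and the main theorem.
-/

set_option autoImplicit false
set_option linter.unusedSectionVars false

namespace Pool.Agent.Run7.h57.MUB

open FirstOrder FirstOrder.Language
open Encodable Pool.Agent.Helper578.JD Pool.Agent.Helper578.JD.Oracle Pool.Agent.Helper578.JD.Defs
open Pool.Agent.Helper578.JD.RE Pool.Agent.H623R3.JC Pool.Agent.Helper227.EN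
open Pool.Agent.Helper227 (pre)
open Pool.Agent.TH752.AR (prN EN Ari DF)


section
variable {M : Type} [CommSemiring M] [LinearOrder M] [IsStrictOrderedRing M]
  [CanonicallyOrderedAdd M] [LA.Structure M]

/-- the sets of the standard system are traces of definable sets -/
theorem ssp_dfn (h : NPA M) {X : Set ℕ} (hX : X ∈ SSp M) :
    ∃ T : M → Prop, Pool.Agent.TH752.AR.Dfn LA (Set.univ : Set M) (fun v => T (v 0)) ∧ ∀ n : ℕ, T n ↔ n ∈ X := by
  have hA := ari_of_npa h
  obtain ⟨c, hc⟩ := hX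
  obtain ⟨G, hG, hG'⟩ := repF_primrec h.compat _ (Primrec.nat_iff.1 CALC2_nth)
  refine ⟨fun k => ∀ y, G k y → y ∣ c, ?_, fun n => ?_⟩
  · have h1 : Pool.Agent.TH752.AR.Dfn LA (Set.univ : Set M) fun w => G (w 1) (w 0) → w 0 ∣ c :=
      ((dfa_of_dfn hG _).ren2 (R := fun x y => G x y) 1 0).imp (hA.dvd (DF.var 0) (DF.par c))
    exact h1.all
  · rw [hc n]
    constructor
    · intro h1
      exact h1 _ ((hG' n _).2 rfl)
    · intro h1 y hy
      rw [(hG' n y).1 hy]
      exact h1

/-- divisibility is decidable from the diagram -/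
theorem dec_dvd (h : NPA M) {g : ℕ → M} (hg : Function.Surjective g) {A : Set ℕ}
    (hA : DecIn A fun p => Dg g p = true) (c : ℕ) :
    DecIn A fun d : ℕ => 0 < g d ∧ g d ∣ g c := by
  have hAr := ari_of_npa h
  have hM := h.compat
  obtain ⟨ad, had, had1⟩ := names_add hM hg hA
  obtain ⟨ml, hml, hml1⟩ := names_mul hM hg hA
  obtain ⟨z, hz⟩ := hg 0
  have hE := names_eq hM hA
  have hL := names_lt hM hA
  have hpos : DecIn A fun d : ℕ => 0 < g d :=
    (DecIn.comp (f := fun d : ℕ => (z, d)) hL (by fun_prop)).of_eq fun d => by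
      show g z < g d ↔ _
      rw [hz]
  have h1 : REIn A fun d : ℕ => ∃ q : ℕ, g c = g (ml (d, q)) := by
    refine REIn.ex (S := fun (d q : ℕ) => g c = g (ml (d, q))) ?_
    exact (DecIn.comp (f := fun x : ℕ × ℕ => (c, ml (x.1, x.2))) hE
      (CompIn.pair (by fun_prop) (hml.comp (by fun_prop)))).1
  have h2 : REIn A fun d : ℕ => ∃ q r : ℕ, (g z < g r ∧ g r < g d) ∧
      g c = g (ad (ml (d, q), r)) := by
    refine REIn.ex (S := fun (d q : ℕ) => ∃ r : ℕ, (g z < g r ∧ g r < g d) ∧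
      g c = g (ad (ml (d, q), r))) ?_
    refine REIn.ex (S := fun (x : ℕ × ℕ) (r : ℕ) => (g z < g r ∧ g r < g x.1) ∧
      g c = g (ad (ml (x.1, x.2), r))) ?_
    refine (DecIn.and (DecIn.and ?_ ?_) ?_).1
    · exact DecIn.comp (f := fun x : (ℕ × ℕ) × ℕ => (z, x.2)) hL (by fun_prop)
    · exact DecIn.comp (f := fun x : (ℕ × ℕ) × ℕ => (x.2, x.1.1)) hL (by fun_prop)
    · exact DecIn.comp (f := fun x : (ℕ × ℕ) × ℕ => (c, ad (ml (x.1.1, x.1.2), x.2))) hE
        (CompIn.pair (by fun_prop) (had.comp (CompIn.pair (hml.comp (by fun_prop)) (by fun_prop))))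
  constructor
  · refine (REIn.and hpos.1 h1).of_eq fun d => and_congr_right fun _ => ?_
    constructor
    · rintro ⟨q, hq⟩
      exact ⟨g q, by rw [hq, hml1]⟩
    · rintro ⟨x, hx⟩
      obtain ⟨q, rfl⟩ := hg x
      exact ⟨q, by rw [hx, hml1]⟩
  · refine (REIn.or hpos.2 (REIn.and hpos.1 h2)).of_eq fun d => ?_
    constructor
    · rintro (h3 | ⟨h3, q, r, ⟨h4, h5⟩, h6⟩)
      · exact fun h7 => h3 h7.1
      · rintro ⟨-, h7⟩
        rw [had1, hml1] at h6
        rw [h6] at h7
        have h8 := Ari.dvd_of_add h7 (dvd_mul_right _ _)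
        obtain ⟨e, he⟩ := h8
        rw [hz] at h4
        rcases eq_or_ne e 0 with rfl | he0
        · rw [mul_zero] at he
          exact h4.ne' he
        · have h9 : g d ≤ g r := by
            rw [he]
            refine le_mul_of_one_le_right zero_le ?_
            by_contra h10
            exact he0 (hAr.disc e (not_le.1 h10))
          exact absurd h5 (not_lt.2 h9)
    · intro h3
      by_cases h4 : 0 < g d
      · right
        refine ⟨h4, ?_⟩
        obtain ⟨q, r, hr, hq⟩ := hAr.div (g c) h4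
        obtain ⟨q, rfl⟩ := hg q
        obtain ⟨r, rfl⟩ := hg r
        refine ⟨q, r, ⟨?_, hr⟩, by rw [had1, hml1]; exact hq⟩
        rw [hz]
        rcases eq_or_ne (g r) 0 with h5 | h5
        · exfalso
          apply h3
          rw [h5, add_zero] at hq
          exact ⟨h4, by rw [hq]; exact dvd_mul_right _ _⟩
        · exact pos_iff_ne_zero.2 h5
      · exact Or.inl h4

/-- the tests for a fixed pair of codes are decidable from the diagram -/
theorem dec_TT (h : NPA M) {g : ℕ → M} (hg : Function.Surjective g) {A : Set ℕ}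
    (hA : DecIn A fun p => Dg g p = true) (a0 b0 : M) :
    DecIn A fun x : ℕ => TT a0 b0 (g x) := by
  have hM := h.compat
  obtain ⟨ad, had, had1⟩ := names_add hM hg hA
  obtain ⟨ml, hml, hml1⟩ := names_mul hM hg hA
  obtain ⟨a, rfl⟩ := hg a0
  obtain ⟨b, rfl⟩ := hg b0
  obtain ⟨o, ho⟩ := hg 1
  have h1 := DecIn.comp (f := fun x : ℕ => ad (ml (ad (x, o), b), o)) (dec_dvd h hg hA a)
    (had.comp (CompIn.pair (hml.comp (CompIn.pair (had.comp (by fun_prop)) (by fun_prop)))
      (by fun_prop)))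
  refine h1.of_eq fun x => ?_
  unfold TT
  rw [had1, hml1, had1, ho]
  constructor
  · exact fun h2 => h2.2
  · intro h2
    exact ⟨lt_of_lt_of_le zero_lt_one le_add_self, h2⟩

/-- the pairing function is computable from the diagram -/
theorem ci_prN (h : NPA M) {g : ℕ → M} (hg : Function.Surjective g) {A : Set ℕ}
    (hA : DecIn A fun p => Dg g p = true) :
    ∃ f : ℕ × ℕ → ℕ, CompIn A f ∧ ∀ p, g (f p) = prN (g p.1) (g p.2) := by
  have hM := h.compat
  obtain ⟨ad, had, had1⟩ := names_add hM hg hA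
  obtain ⟨ml, hml, hml1⟩ := names_mul hM hg hA
  refine ⟨fun p => ad (ml (ad p, ad p), p.1), had.comp (CompIn.pair (hml.comp (CompIn.pair had had))
    (by fun_prop)), fun p => ?_⟩
  rw [had1, hml1, had1]
  rfl

end

/-- the main theorem, for all the traces of definable sets -/
theorem mainDeg' (M : Type) [CommSemiring M] [LinearOrder M] [IsStrictOrderedRing M]
    [CanonicallyOrderedAdd M] [LA.Structure M] (h : NPA M) (g : ℕ → M)
    (hg : Function.Surjective g) (A : Set ℕ) (hA : DecIn A fun p => Dg g p = true) :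
    ∃ B D : Set ℕ, Red B A ∧ Red D A ∧ ¬ Red D B ∧ ∀ (X : Set ℕ) (T : M → Prop),
      Pool.Agent.TH752.AR.Dfn LA (Set.univ : Set M) (fun v => T (v 0)) → (∀ n : ℕ, T n ↔ n ∈ X) → Red X B := by
  have hAr := ari_of_npa h
  have hM := h.compat
  obtain ⟨R, hR, hR1, hR2⟩ := exists_R h
  obtain ⟨b, hb, hbZ⟩ := exists_bound h
  obtain ⟨a0, b0, ht1, ht2, ht3⟩ := exists_table h R hR b hb
  -- the table for membership
  obtain ⟨a2, b2, hab⟩ := hAr.exists_div_code (S := fun x => ∃ k s, x = prN k s ∧ EN k s) (by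
    have hv : ∀ i, DF LA (Set.univ : Set M) fun w => w i := fun i => DF.var i
    have h1 : Pool.Agent.TH752.AR.Dfn LA (Set.univ : Set M) fun w => w 2 = prN (w 1) (w 0) ∧ EN (w 1) (w 0) :=
      (Pool.Agent.TH752.AR.Dfn.eqT (hv 2) (hAr.add (hAr.mul (hAr.add (hv 1) (hv 0))
        (hAr.add (hv 1) (hv 0))) (hv 1))).and (hAr.dEN (hv 1) (hv 0))
    exact h1.ex.ex) (prN b b)
  have hmem : ∀ k s : M, k < b → s < b → (TT a2 b2 (prN k s) ↔ EN k s) := by
    intro k s hk hs
    have h1 : prN k s < prN b b := by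
      unfold prN
      have h2 : k + s < b + b := add_lt_add hk hs
      exact add_lt_add (mul_lt_mul'' h2 h2 zero_le zero_le) hk
    unfold TT
    rw [hab _ h1]
    constructor
    · rintro ⟨k', s', e, h3⟩
      obtain ⟨rfl, rfl⟩ := hAr.prN_inj e
      exact h3
    · intro h3
      exact ⟨k, s, rfl, h3⟩
  have hE := names_eq hM hA
  have hL := names_lt hM hA
  obtain ⟨pr, hpr, hpr1⟩ := ci_prN h hg hA
  obtain ⟨nu, hnu, hnu1⟩ := names_num hM hg hA
  have hT0 := dec_TT h hg hA a0 b0
  have hT2 := dec_TT h hg hA a2 b2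
  obtain ⟨z, hz⟩ := hg 0
  obtain ⟨β, hβ⟩ := hg b
  have hb0 : (0 : M) < b := by simpa using hb 0
  -- the parameters
  let al : ℕ → ℕ := fun i => open Classical in if g i < g β then i else z
  have hal : CompIn A al := by
    refine (CompIn.ite (A := A) (P := fun i => g i < g β) (f := fun i => i) (g := fun _ => z)
      (DecIn.comp (f := fun i : ℕ => (i, β)) hL (by fun_prop))
      (by fun_prop) (by fun_prop)).of_eq fun i => ?_
    simp only [al]
    by_cases h1 : g i < g β
    · rw [if_pos h1, if_pos h1]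
    · rw [if_neg h1, if_neg h1]
  have hal1 : ∀ i, g (al i) < b := by
    intro i
    simp only [al]
    split_ifs with h1
    · rwa [hβ] at h1
    · rw [hz]; exact hb0
  -- one step
  obtain ⟨nx, hnx, hnx1⟩ := CompIn.find (A := A) (α := ℕ × ℕ)
    (P := fun p v => (g v < g β ∧ TT a0 b0 (g (pr (pr (pr (nu p.1, p.2), al p.1), v)))) ∨
      ¬ g p.2 < g β) (by
        refine DecIn.or (DecIn.and ?_ ?_) (DecIn.not ?_)
        · exact DecIn.comp (f := fun x : (ℕ × ℕ) × ℕ => (x.2, β)) hL (by fun_prop)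
        · exact DecIn.comp (f := fun x : (ℕ × ℕ) × ℕ =>
            pr (pr (pr (nu x.1.1, x.1.2), al x.1.1), x.2)) hT0
            (hpr.comp (CompIn.pair (hpr.comp (CompIn.pair (hpr.comp (CompIn.pair
              (hnu.comp (by fun_prop)) (by fun_prop))) (hal.comp (by fun_prop)))) (by fun_prop)))
        · exact DecIn.comp (f := fun x : (ℕ × ℕ) × ℕ => (x.1.2, β)) hL (by fun_prop)) (by
        intro p
        by_cases h1 : g p.2 < g β
        · obtain ⟨v, hv, h2⟩ := ht1 (p.1 : M) (g p.2) (g (al p.1)) (hb _) (by rwa [hβ] at h1)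
            (hal1 _)
          obtain ⟨v, rfl⟩ := hg v
          refine ⟨v, Or.inl ⟨by rwa [hβ], ?_⟩⟩
          rw [hpr1, hpr1, hpr1, hnu1]
          exact h2
        · exact ⟨0, Or.inr h1⟩)
  let σ : ℕ → ℕ := fun n => Nat.rec z (fun i s => nx (i, s)) n
  have hσ : CompIn A σ := by
    have h1 := CompIn.iterate (A := A) (α := Unit) (β := ℕ) (f := fun _ => z)
      (g := fun p => nx (p.2.1, p.2.2)) (by fun_prop) (hnx.comp (by fun_prop))
    exact CompIn.comp (g := fun n : ℕ => ((), n)) h1 (by fun_prop)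
  have hσs : ∀ i, σ (i + 1) = nx (i, σ i) := fun i => rfl
  have hσb : ∀ i, g (σ i) < b := by
    intro i
    induction i with
    | zero =>
      show g z < b
      rw [hz]; exact hb0
    | succ i ih =>
      rw [hσs]
      rcases (hnx1 (i, σ i)).1 with h1 | h1
      · rw [← hβ]; exact h1.1
      · exact absurd (by rw [hβ]; exact ih) h1
  have hσT : ∀ i : ℕ, TT a0 b0 (prN (prN (prN (i : M) (g (σ i))) (g (al i))) (g (σ (i + 1)))) := by
    intro i
    rcases (hnx1 (i, σ i)).1 with h1 | h1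
    · have h2 := h1.2
      rw [hpr1, hpr1, hpr1, hnu1] at h2
      exact h2
    · exact absurd (by rw [hβ]; exact hσb i) h1
  -- the states are good
  have step : ∀ i, (∀ n, Lg Qc n i i (ev (Sx (g (σ i)))) (od (Sx (g (σ i))))) →
      ∀ n, Gd Qc n i (Sx (g (σ i))) (Sx (g (al i))) (Sx (g (σ (i + 1)))) := by
    intro i hi
    refine hR2 _ _ _ i ?_
    refine ht3 i (g (σ i)) (g (al i)) (g (σ (i + 1))) (hσb i) (hal1 i) (hσb (i + 1)) (hσT i) ?_
    intro m
    obtain ⟨v, hv, hG⟩ := Gd.exists Qc_QS hi (Sx (g (al i))) m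
    obtain ⟨T, hT, hT'⟩ := fin_dfn (M := M) hv.toFinset
    obtain ⟨v', hv', hv''⟩ := hbZ v T hT (fun n => by rw [hT' n]; simp)
    refine ⟨v', hv', hR1 _ _ _ i m ?_⟩
    rw [hv'']
    exact hG
  have good : ∀ i n, Gd Qc n i (Sx (g (σ i))) (Sx (g (al i))) (Sx (g (σ (i + 1)))) := by
    intro i
    induction i with
    | zero => exact step 0 fun n => Lg.start n _ _
    | succ i ih => exact step (i + 1) fun n => (ih n).large
  let s : ℕ → Set ℕ := fun i => Sx (g (σ i))
  let a : ℕ → Set ℕ := fun i => Sx (g (al i))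
  have good' : ∀ i n, Gd Qc n i (s i) (a i) (s (i + 1)) := good
  -- decidability of the states
  have hdec : ∀ {f e : ℕ → ℕ}, CompIn A f → CompIn A e →
      DecIn A fun x => e x ∈ s (f x) := by
    intro f e hf he
    refine (DecIn.comp (f := fun x : ℕ => pr (nu (e x), σ (f x))) hT2
      (hpr.comp (CompIn.pair (hnu.comp he) (hσ.comp hf)))).of_eq fun x => ?_
    rw [hpr1, hnu1]
    exact hmem _ _ (hb _) (hσb _)
  refine ⟨Bl s, Dl s, ?_, ?_, ?_, ?_⟩
  · rw [Red_iff]
    exact hdec (f := fun x => blk x + 1) (e := fun x => 2 * x) (by fun_prop) (by fun_prop)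
  · rw [Red_iff]
    exact hdec (f := fun x => x + 1) (e := fun x => 2 * x + 1) (by fun_prop) (by fun_prop)
  · intro hr
    obtain ⟨e, n, hv⟩ := Qc_diag hr
    exact lim_Vi Qc_QS good' e n hv
  · intro X T hT hT'
    obtain ⟨x, hx, hx'⟩ := hbZ X T hT hT'
    obtain ⟨i, rfl⟩ := hg x
    have hi : al i = i := by
      simp only [al]
      rw [if_pos (by rw [hβ]; exact hx)]
    obtain ⟨j, hj⟩ := lim_col good' i
    have h1 : ∀ x, x ∈ X ↔ idx i j x ∈ Bl s := by
      intro x
      rw [hj x]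
      show _ ↔ x ∈ Sx (g (al i))
      rw [hi, hx']
    rw [Red_iff]
    have hc : Computable fun x : ℕ => idx i j x := by
      unfold idx
      fun_prop
    exact ⟨(REIn.mem hc).of_eq fun x => (h1 x).symm,
      (REIn.not_mem hc).of_eq fun x => not_congr (h1 x).symm⟩

theorem mainDeg : MainDeg := by
  intro M _ _ _ _ _ h g hg A hA
  obtain ⟨B, D, h1, h2, h3, h4⟩ := mainDeg' M h g hg A hA
  refine ⟨B, D, h1, h2, h3, fun X hX => ?_⟩
  obtain ⟨T, hT, hT'⟩ := ssp_dfn h hX
  exact h4 X T hT hT'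

end Pool.Agent.Run7.h57.MUB
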