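import Mathlib

/-!
Degrees of models of arithmetic: the combinatorial part.

`Q b e n P` is a decidable notion at stage `n`, the oracle `P` has been seen to claim that the truth
value of `e` is `b`. We build `B` and `D` by blocks, avoiding `Q (D e) e n B` for all `e`, `n`, and
coding a given set in a column of each block of `B`.
-/

set_option autoImplicit false

namespace Pool.Agent.Run7.h57.MUB

/-- position `x` of column `j` of block `k` -/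
def idx (k j x : ℕ) : ℕ := Nat.pair k (Nat.pair j x)

/-- block of a position -/
def blk (z : ℕ) : ℕ := z.unpair.1

@[simp] theorem blk_idx (k j x : ℕ) : blk (idx k j x) = k := by simp [blk, idx]

theorem blk_le (z : ℕ) : blk z ≤ z := Nat.unpair_left_le z

theorem le_idx1 (k j x : ℕ) : k ≤ idx k j x := Nat.left_le_pair _ _

theorem le_idx3 (k j x : ℕ) : x ≤ idx k j x :=
  (Nat.right_le_pair j x).trans (Nat.right_le_pair _ _)

theorem le_idx2 (k j x : ℕ) : j ≤ idx k j x :=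
  (Nat.left_le_pair j x).trans (Nat.right_le_pair _ _)

structure QS (Q : Bool → ℕ → ℕ → Set ℕ → Prop) : Prop where
  loc : ∀ b e n P P', (∀ z < n, z ∈ P ↔ z ∈ P') → Q b e n P → Q b e n P'
  mono : ∀ b e n m P, n ≤ m → Q b e n P → Q b e m P
  excl : ∀ e n P, Q true e n P → Q false e n P → False

variable {Q : Bool → ℕ → ℕ → Set ℕ → Prop}

/-- the requirement `e` is violated -/
def Vi (Q : Bool → ℕ → ℕ → Set ℕ → Prop) (e : ℕ) (D : Set ℕ) (n : ℕ) (P : Set ℕ) : Prop :=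
  (e ∈ D ∧ Q true e n P) ∨ (e ∉ D ∧ Q false e n P)

/-- the history before block `k` -/
def hs (n k : ℕ) (P : Set ℕ) : Set ℕ := {z | z ∈ P ∧ z < n ∧ blk z < k}

/-- the part `S` of the blocks below `i` and the first `p` values `D` are still good (level `n`) -/
def Lg (Q : Bool → ℕ → ℕ → Set ℕ → Prop) (n i p : ℕ) (S D : Set ℕ) : Prop :=
  ∀ γ : ℕ → ℕ → Set ℕ → Set ℕ, ∃ P : Set ℕ,
    (∀ z < n, blk z < i → (z ∈ P ↔ z ∈ S)) ∧
    (∀ k, i ≤ k → ∀ t < 2 ^ (k + 1 - p), ∃ j < 2 ^ (k + 1), ∀ x, idx k j x < n →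
      (idx k j x ∈ P ↔ x ∈ γ k t (hs n k P))) ∧
    ∀ e < p, ¬ Vi Q e D n P

theorem Vi.mono (hQ : QS Q) {e : ℕ} {D P : Set ℕ} {n m : ℕ} (h : n ≤ m) (hv : Vi Q e D n P) :
    Vi Q e D m P := by
  rcases hv with ⟨h1, h2⟩ | ⟨h1, h2⟩
  · exact Or.inl ⟨h1, hQ.mono _ _ _ _ _ h h2⟩
  · exact Or.inr ⟨h1, hQ.mono _ _ _ _ _ h h2⟩

theorem Vi.loc (hQ : QS Q) {e : ℕ} {D D' P P' : Set ℕ} {n : ℕ} (hD : e ∈ D ↔ e ∈ D')
    (h : ∀ z < n, z ∈ P ↔ z ∈ P') (hv : Vi Q e D n P) : Vi Q e D' n P' := by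
  rcases hv with ⟨h1, h2⟩ | ⟨h1, h2⟩
  · exact Or.inl ⟨hD.1 h1, hQ.loc _ _ _ _ _ h h2⟩
  · exact Or.inr ⟨fun h3 => h1 (hD.2 h3), hQ.loc _ _ _ _ _ h h2⟩

theorem Lg.loc (hQ : QS Q) {n i p : ℕ} {S S' D D' : Set ℕ}
    (hS : ∀ z < n, blk z < i → (z ∈ S ↔ z ∈ S')) (hD : ∀ e < p, e ∈ D ↔ e ∈ D')
    (h : Lg Q n i p S D) : Lg Q n i p S' D' := by
  intro γ
  obtain ⟨P, h1, h2, h3⟩ := h γ
  refine ⟨P, fun z hz hb => (h1 z hz hb).trans (hS z hz hb), h2, fun e he hv => h3 e he ?_⟩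
  exact Vi.loc hQ (hD e he).symm (fun z _ => Iff.rfl) hv

theorem Lg.mono (hQ : QS Q) {n m i p : ℕ} {S D : Set ℕ} (hnm : n ≤ m) (h : Lg Q m i p S D) :
    Lg Q n i p S D := by
  intro γ
  obtain ⟨P, h1, h2, h3⟩ := h fun k t R => γ k t {z | z ∈ R ∧ z < n}
  refine ⟨P, fun z hz hb => h1 z (hz.trans_le hnm) hb, fun k hk t ht => ?_, fun e he hv =>
    h3 e he (hv.mono hQ hnm)⟩
  obtain ⟨j, hj, h4⟩ := h2 k hk t ht
  refine ⟨j, hj, fun x hx => ?_⟩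
  rw [h4 x (hx.trans_le hnm)]
  have : {z | z ∈ hs m k P ∧ z < n} = hs n k P := by
    ext z
    simp only [hs, Set.mem_ofPred_eq]
    constructor
    · rintro ⟨⟨a, b, c⟩, d⟩; exact ⟨a, d, c⟩
    · rintro ⟨a, b, c⟩; exact ⟨⟨a, b.trans_le hnm, c⟩, b⟩
  rw [this]

theorem Lg.split (hQ : QS Q) {i p : ℕ} {S D : Set ℕ} (hpi : p ≤ i) (h : ∀ n, Lg Q n i p S D) :
    (∀ n, Lg Q n i (p + 1) S (D ∪ {p})) ∨ (∀ n, Lg Q n i (p + 1) S (D \ {p})) := by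
  by_contra hc
  push Not at hc
  obtain ⟨⟨n1, h1⟩, ⟨n0, h0⟩⟩ := hc
  have h1' : ¬ Lg Q (max n0 n1) i (p + 1) S (D ∪ {p}) := fun h => h1 (h.mono hQ (le_max_right _ _))
  have h0' : ¬ Lg Q (max n0 n1) i (p + 1) S (D \ {p}) := fun h => h0 (h.mono hQ (le_max_left _ _))
  generalize max n0 n1 = n at h1' h0'
  unfold Lg at h1' h0'
  push Not at h1' h0'
  obtain ⟨γ1, h1'⟩ := h1'
  obtain ⟨γ0, h0'⟩ := h0'
  obtain ⟨P, hP1, hP2, hP3⟩ := h n fun k t R => if t % 2 = 0 then γ0 k (t / 2) R else γ1 k (t / 2) R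
  have key : ∀ k, i ≤ k → (2 : ℕ) ^ (k + 1 - p) = 2 * 2 ^ (k + 1 - (p + 1)) := by
    intro k hk
    rw [← pow_succ']
    congr 1
    omega
  obtain ⟨e1, he1, hv1⟩ := h1' P hP1 (fun k hk t ht => by
    obtain ⟨j, hj, h4⟩ := hP2 k hk (2 * t + 1) (by rw [key k hk]; omega)
    refine ⟨j, hj, fun x hx => ?_⟩
    rw [h4 x hx]
    have : (2 * t + 1) / 2 = t := by omega
    simp [this])
  obtain ⟨e0, he0, hv0⟩ := h0' P hP1 (fun k hk t ht => by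
    obtain ⟨j, hj, h4⟩ := hP2 k hk (2 * t) (by rw [key k hk]; omega)
    refine ⟨j, hj, fun x hx => ?_⟩
    rw [h4 x hx]
    simp)
  have e1p : e1 = p := by
    by_contra hne
    refine hP3 e1 (by omega) (Vi.loc hQ ?_ (fun z _ => Iff.rfl) hv1)
    simp [hne]
  have e0p : e0 = p := by
    by_contra hne
    refine hP3 e0 (by omega) (Vi.loc hQ ?_ (fun z _ => Iff.rfl) hv0)
    simp [hne]
  subst e1p
  rw [e0p] at hv0
  rcases hv1 with ⟨_, a⟩ | ⟨a, _⟩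
  · rcases hv0 with ⟨b, _⟩ | ⟨_, b⟩
    · simp at b
    · exact hQ.excl _ _ _ a b
  · simp at a

theorem Lg.fix (hQ : QS Q) {n i p : ℕ} {S D : Set ℕ} (h : Lg Q n i p S D) (Z : Set ℕ) :
    ∃ S' : Set ℕ, (∀ z, blk z ≠ i → (z ∈ S' ↔ z ∈ S)) ∧
      (∃ j < 2 ^ (i + 1), ∀ x, idx i j x < n → (idx i j x ∈ S' ↔ x ∈ Z)) ∧
      Lg Q n (i + 1) p S' D := by
  classical
  by_contra hc
  push Not at hc
  -- refuting strategies
  have h1 : ∀ S' : Set ℕ, ∃ γ : ℕ → ℕ → Set ℕ → Set ℕ, (∀ z, blk z ≠ i → (z ∈ S' ↔ z ∈ S)) →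
      (∃ j < 2 ^ (i + 1), ∀ x, idx i j x < n → (idx i j x ∈ S' ↔ x ∈ Z)) →
      ¬ ∃ P : Set ℕ,
        (∀ z < n, blk z < i + 1 → (z ∈ P ↔ z ∈ S')) ∧
        (∀ k, i + 1 ≤ k → ∀ t < 2 ^ (k + 1 - p), ∃ j < 2 ^ (k + 1), ∀ x, idx k j x < n →
          (idx k j x ∈ P ↔ x ∈ γ k t (hs n k P))) ∧
        ∀ e < p, ¬ Vi Q e D n P := by
    intro S'
    by_cases hS : (∀ z, blk z ≠ i → (z ∈ S' ↔ z ∈ S)) ∧
      (∃ j < 2 ^ (i + 1), ∀ x, idx i j x < n → (idx i j x ∈ S' ↔ x ∈ Z))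
    · have := hc S' hS.1 hS.2
      unfold Lg at this
      rw [not_forall] at this
      obtain ⟨γ, hγ⟩ := this
      exact ⟨γ, fun _ _ => hγ⟩
    · exact ⟨fun _ _ _ => ∅, fun a b => absurd ⟨a, b⟩ hS⟩
  choose Γ hΓ using h1
  let C : Set ℕ → Set ℕ := fun R => {z | (blk z = i ∧ z ∈ R) ∨ (blk z ≠ i ∧ z ∈ S)}
  obtain ⟨P, hP1, hP2, hP3⟩ := h fun k t R => if k ≤ i then Z else Γ (C R) k t R
  let S' : Set ℕ := C {z | z ∈ P ∧ z < n}
  have hS1 : ∀ z, blk z ≠ i → (z ∈ S' ↔ z ∈ S) := fun z hz => by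
    simp only [S', C, Set.mem_ofPred_eq]
    tauto
  have hS2 : ∀ z, blk z = i → (z ∈ S' ↔ z ∈ P ∧ z < n) := fun z hz => by
    simp only [S', C, Set.mem_ofPred_eq]
    tauto
  have hcol : ∃ j < 2 ^ (i + 1), ∀ x, idx i j x < n → (idx i j x ∈ S' ↔ x ∈ Z) := by
    obtain ⟨j, hj, h4⟩ := hP2 i le_rfl 0 (by positivity)
    refine ⟨j, hj, fun x hx => ?_⟩
    rw [hS2 _ (blk_idx _ _ _), h4 x hx]
    simp [hx]
  refine hΓ S' hS1 hcol ⟨P, fun z hz hb => ?_, fun k hk t ht => ?_, hP3⟩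
  · by_cases hzi : blk z = i
    · rw [hS2 z hzi]; simp [hz]
    · rw [hS1 z hzi]; exact hP1 z hz (by omega)
  · obtain ⟨j, hj, h4⟩ := hP2 k (by omega) t ht
    refine ⟨j, hj, fun x hx => ?_⟩
    rw [h4 x hx, if_neg (by omega)]
    have : C (hs n k P) = S' := by
      ext z
      simp only [S', C, hs, Set.mem_ofPred_eq]
      constructor
      · rintro (⟨a, b, c, d⟩ | ⟨a, b⟩)
        · exact Or.inl ⟨a, b, c⟩
        · exact Or.inr ⟨a, b⟩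
      · rintro (⟨a, b, c⟩ | ⟨a, b⟩)
        · exact Or.inl ⟨a, b, c, by omega⟩
        · exact Or.inr ⟨a, b⟩
    rw [this]

/-- the blocks of a set built by a strategy -/
def Hb (n : ℕ) (γ : ℕ → ℕ → Set ℕ → Set ℕ) : ℕ → Set ℕ
  | 0 => ∅
  | k + 1 => Hb n γ k ∪ {z | blk z = k ∧
      z.unpair.2.unpair.2 ∈ γ k z.unpair.2.unpair.1 {y | y ∈ Hb n γ k ∧ y < n}}

theorem Hb_blk {n : ℕ} {γ : ℕ → ℕ → Set ℕ → Set ℕ} {k z : ℕ} (h : z ∈ Hb n γ k) : blk z < k := by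
  induction k with
  | zero => exact absurd h (Set.notMem_empty z)
  | succ k ih =>
    rcases h with h | ⟨h, -⟩
    · exact (ih h).trans (Nat.lt_succ_self k)
    · omega

theorem Hb_mono {n : ℕ} {γ : ℕ → ℕ → Set ℕ → Set ℕ} {k m z : ℕ} (hkm : k ≤ m) (hz : blk z < k) :
    z ∈ Hb n γ m ↔ z ∈ Hb n γ k := by
  induction m, hkm using Nat.le_induction with
  | base => exact Iff.rfl
  | succ m hm ih =>
    rw [← ih]
    constructor
    · rintro (h | ⟨h, -⟩)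
      · exact h
      · omega
    · exact fun h => Or.inl h

theorem Lg.start (n : ℕ) (S D : Set ℕ) : Lg Q n 0 0 S D := by
  intro γ
  refine ⟨{z | z ∈ Hb n γ (blk z + 1)}, fun z _ h => absurd h (Nat.not_lt_zero _), ?_,
    fun e he => absurd he (Nat.not_lt_zero _)⟩
  intro k _ t ht
  refine ⟨t, by simpa using ht, fun x hx => ?_⟩
  have h1 : hs n k {z | z ∈ Hb n γ (blk z + 1)} = {y | y ∈ Hb n γ k ∧ y < n} := by
    ext z
    simp only [hs, Set.mem_ofPred_eq]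
    constructor
    · rintro ⟨a, b, c⟩
      exact ⟨(Hb_mono (by omega) (by omega)).2 a, b⟩
    · rintro ⟨a, b⟩
      have := Hb_blk a
      exact ⟨(Hb_mono (by omega) (by omega)).1 a, b, this⟩
  rw [h1]
  show idx k t x ∈ Hb n γ (blk (idx k t x) + 1) ↔ _
  rw [blk_idx]
  constructor
  · rintro (h | ⟨-, h⟩)
    · have := Hb_blk h
      rw [blk_idx] at this
      omega
    · simpa [idx] using h
  · intro h
    refine Or.inr ⟨blk_idx _ _ _, ?_⟩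
    simpa [idx] using h

/-! ### states -/

/-- even part -/
def ev (s : Set ℕ) : Set ℕ := {z | 2 * z ∈ s}

/-- odd part -/
def od (s : Set ℕ) : Set ℕ := {e | 2 * e + 1 ∈ s}

/-- `v` is a good next state at level `n`, coding `a` in block `i` -/
def Gd (Q : Bool → ℕ → ℕ → Set ℕ → Prop) (n i : ℕ) (s a v : Set ℕ) : Prop :=
  (∀ z < n, blk z < i → (z ∈ ev v ↔ z ∈ ev s)) ∧ (∀ e < i, e ∈ od v ↔ e ∈ od s) ∧
  (∃ j < 2 ^ (i + 1), ∀ x, idx i j x < n → (idx i j x ∈ ev v ↔ x ∈ a)) ∧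
  Lg Q n (i + 1) (i + 1) (ev v) (od v)

theorem Gd.mono (hQ : QS Q) {n m i : ℕ} {s a v : Set ℕ} (hnm : n ≤ m) (h : Gd Q m i s a v) :
    Gd Q n i s a v := by
  obtain ⟨h1, h2, ⟨j, hj, h3⟩, h4⟩ := h
  exact ⟨fun z hz => h1 z (hz.trans_le hnm), h2, ⟨j, hj, fun x hx => h3 x (hx.trans_le hnm)⟩,
    h4.mono hQ hnm⟩

theorem Gd.loc (hQ : QS Q) {n i : ℕ} {s a v s' a' v' : Set ℕ}
    (hs : ∀ z < 2 * n + 2 * i + 2, z ∈ s ↔ z ∈ s') (ha : ∀ z < 2 * n + 2 * i + 2, z ∈ a ↔ z ∈ a')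
    (hv : ∀ z < 2 * n + 2 * i + 2, z ∈ v ↔ z ∈ v') (h : Gd Q n i s a v) : Gd Q n i s' a' v' := by
  obtain ⟨h1, h2, ⟨j, hj, h3⟩, h4⟩ := h
  have hev : ∀ z < n, z ∈ ev v ↔ z ∈ ev v' := fun z hz => hv _ (by omega)
  have hod : ∀ e < i + 1, e ∈ od v ↔ e ∈ od v' := fun e he => hv _ (by omega)
  have hes : ∀ z < n, z ∈ ev s ↔ z ∈ ev s' := fun z hz => hs _ (by omega)
  have hos : ∀ e < i + 1, e ∈ od s ↔ e ∈ od s' := fun e he => hs _ (by omega)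
  refine ⟨fun z hz hb => ?_, fun e he => ?_, ⟨j, hj, fun x hx => ?_⟩,
    h4.loc hQ (fun z hz _ => hev z hz) hod⟩
  · rw [← hev z hz, ← hes z hz]; exact h1 z hz hb
  · rw [← hod e (by omega), ← hos e (by omega)]; exact h2 e he
  · rw [← hev _ hx, ← ha x (by have := le_idx3 i j x; omega)]; exact h3 x hx

/-- existence of a good next state -/
theorem Gd.exists (hQ : QS Q) {i : ℕ} {s : Set ℕ} (h : ∀ n, Lg Q n i i (ev s) (od s)) (a : Set ℕ)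
    (n : ℕ) : ∃ v : Set ℕ, v.Finite ∧ Gd Q n i s a v := by
  have h1 : ∃ D' : Set ℕ, (∀ e < i, e ∈ D' ↔ e ∈ od s) ∧ Lg Q n i (i + 1) (ev s) D' := by
    rcases Lg.split hQ le_rfl h with h1 | h1
    · exact ⟨_, fun e he => by simp [he.ne], h1 n⟩
    · exact ⟨_, fun e he => by simp [he.ne], h1 n⟩
  obtain ⟨D', hD1, hD2⟩ := h1
  obtain ⟨S', hS1, ⟨j, hj, hS2⟩, hS3⟩ := hD2.fix hQ a
  let v : Set ℕ := {y | (y % 2 = 0 ∧ y / 2 ∈ S' ∧ y / 2 < n) ∨ (y % 2 = 1 ∧ y / 2 ∈ D' ∧ y / 2 < i + 1)}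
  have hev : ∀ z < n, z ∈ ev v ↔ z ∈ S' := fun z hz => by
    simp only [ev, v, Set.mem_ofPred_eq]
    have h1 : 2 * z % 2 = 0 := by omega
    have h2 : 2 * z / 2 = z := by omega
    simp [h1, h2, hz]
  have hod : ∀ e < i + 1, e ∈ od v ↔ e ∈ D' := fun e he => by
    simp only [od, v, Set.mem_ofPred_eq]
    have h1 : (2 * e + 1) % 2 = 1 := by omega
    have h2 : (2 * e + 1) / 2 = e := by omega
    simp [h1, h2, he]
  refine ⟨v, ?_, ?_⟩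
  · refine (Set.finite_lt_nat (2 * n + 2 * i + 2)).subset ?_
    rintro y (⟨_, _, h⟩ | ⟨_, _, h⟩)
    · show y < _
      omega
    · show y < _
      omega
  · refine ⟨fun z hz hb => ?_, fun e he => ?_, ⟨j, hj, fun x hx => ?_⟩,
      hS3.loc hQ (fun z hz _ => (hev z hz).symm) (fun e he => (hod e he).symm)⟩
    · rw [hev z hz]; exact hS1 z (by omega)
    · rw [hod e (by omega)]; exact hD1 e he
    · rw [hev _ hx]; exact hS2 x hx

/-! ### the limit -/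

section lim
variable {s a : ℕ → Set ℕ}

/-- the set built -/
def Bl (s : ℕ → Set ℕ) : Set ℕ := {z | z ∈ ev (s (blk z + 1))}

/-- the second set built -/
def Dl (s : ℕ → Set ℕ) : Set ℕ := {e | e ∈ od (s (e + 1))}

theorem Gd.large {n i : ℕ} {s a v : Set ℕ} (h : Gd Q n i s a v) :
    Lg Q n (i + 1) (i + 1) (ev v) (od v) := h.2.2.2

theorem lim_Lg (h : ∀ i n, Gd Q n i (s i) (a i) (s (i + 1))) (i n : ℕ) :
    Lg Q n i i (ev (s i)) (od (s i)) := by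
  cases i with
  | zero => exact Lg.start n _ _
  | succ i => exact (h i n).large

theorem lim_ev (h : ∀ i n, Gd Q n i (s i) (a i) (s (i + 1))) {z i : ℕ} (hz : blk z < i) :
    z ∈ ev (s i) ↔ z ∈ Bl s := by
  induction i, (show blk z + 1 ≤ i from hz) using Nat.le_induction with
  | base => exact Iff.rfl
  | succ i hi ih => rw [← ih (by omega)]; exact (h i (z + 1)).1 z (Nat.lt_succ_self z) (by omega)

theorem lim_od (h : ∀ i n, Gd Q n i (s i) (a i) (s (i + 1))) {e i : ℕ} (he : e < i) :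
    e ∈ od (s i) ↔ e ∈ Dl s := by
  induction i, (show e + 1 ≤ i from he) using Nat.le_induction with
  | base => exact Iff.rfl
  | succ i hi ih => rw [← ih (by omega)]; exact (h i 0).2.1 e (by omega)

theorem lim_Vi (hQ : QS Q) (h : ∀ i n, Gd Q n i (s i) (a i) (s (i + 1))) (e n : ℕ) :
    ¬ Vi Q e (Dl s) n (Bl s) := by
  intro hv
  obtain ⟨P, h1, -, h3⟩ := lim_Lg h (n + e + 1) n fun _ _ _ => ∅
  refine h3 e (by omega) (hv.loc hQ (lim_od h (by omega)).symm fun z hz => ?_)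
  have := blk_le z
  rw [h1 z hz (by omega)]
  exact (lim_ev h (by omega)).symm

theorem lim_col (h : ∀ i n, Gd Q n i (s i) (a i) (s (i + 1))) (i : ℕ) :
    ∃ j, ∀ x, idx i j x ∈ Bl s ↔ x ∈ a i := by
  have h1 : ∀ n, ∃ j < 2 ^ (i + 1), ∀ x, idx i j x < n → (idx i j x ∈ ev (s (i + 1)) ↔ x ∈ a i) :=
    fun n => (h i n).2.2.1
  by_contra hc
  push Not at hc
  have h2 : ∀ j, ∃ x, ¬ (idx i j x ∈ ev (s (i + 1)) ↔ x ∈ a i) := by
    intro j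
    obtain ⟨x, hx⟩ := hc j
    refine ⟨x, fun h3 => ?_⟩
    rw [lim_ev h (by rw [blk_idx]; omega)] at h3
    rcases hx with ⟨a, b⟩ | ⟨a, b⟩
    · exact b (h3.1 a)
    · exact a (h3.2 b)
  choose X hX using h2
  obtain ⟨j, hj, h3⟩ := h1 ((Finset.range (2 ^ (i + 1))).sup (fun j => idx i j (X j)) + 1)
  refine hX j (h3 (X j) ?_)
  exact Nat.lt_succ_of_le (Finset.le_sup (f := fun j => idx i j (X j)) (Finset.mem_range.2 hj))

end lim

end Pool.Agent.Run7.h57.MUB
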