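import Pool.Agent.Run7.h57.MUB.V2
import Pool.Agent.Helper227.ENJ.P_rep_class
import Pool.Agent.TH754.PK.Fr

/-!
The model side: the good states are definable.
-/

set_option autoImplicit false
set_option linter.unusedSectionVars false

namespace Pool.Agent.Run7.h57.MUB

open FirstOrder FirstOrder.Language
open Encodable Pool.Agent.Helper578.JD Pool.Agent.Helper578.JD.Oracle Pool.Agent.Helper578.JD.Defs
open Pool.Agent.Helper578.JD.RE Pool.Agent.H623R3.JC Pool.Agent.Helper227.EN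
open Pool.Agent.Helper227 (pre)
open Pool.Agent.TH752.AR (prN EN Ari DF)


section
variable {M : Type} [CommSemiring M] [LinearOrder M] [IsStrictOrderedRing M]
  [CanonicallyOrderedAdd M] [LA.Structure M]

/-- definable predicates, in the two settings -/
theorem dfa_of_dfn {R : (ℕ → M) → Prop} (h : Pool.Agent.Helper227.EN.Dfn R) (A : Set M) :
    Pool.Agent.TH752.AR.Dfn LA A R := by
  obtain ⟨φ, hφ⟩ := h
  exact (Pool.Agent.TH752.AR.Dfn.fm φ).congr hφ

theorem dfn_of_dfa {R : (ℕ → M) → Prop} (h : Pool.Agent.TH752.AR.Dfn LA (∅ : Set M) R) :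
    Pool.Agent.Helper227.EN.Dfn R := by
  obtain ⟨φ, hφ⟩ := Set.empty_definable_iff.1 h
  exact ⟨φ, fun x => (Set.ext_iff.1 hφ x).symm⟩

theorem ari_of_npa (h : NPA M) : Ari LA M where
  dadd := dfa_of_dfn (by
    obtain ⟨tv, tn, ta, tm, te, tl, -⟩ := trm_ops h.compat
    exact te _ _ (tv 0) (ta _ _ (tv 1) (tv 2))) _
  dmul := dfa_of_dfn (by
    obtain ⟨tv, tn, ta, tm, te, tl, -⟩ := trm_ops h.compat
    exact te _ _ (tv 0) (tm _ _ (tv 1) (tv 2))) _
  disc := h.compat.disc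
  ind := fun S hS h0 hs => Pool.Agent.TH752.AR.pa_ind_dfn h.pa hS (by rwa [h.compat.zero])
    fun x hx => by
      rw [h.compat.one, h.compat.add]
      exact hs x hx

theorem pam_of_npa (h : NPA M) : Pool.Agent.TH754.PK.PAm M := ⟨ari_of_npa h⟩

/-- substitution in a relation of three arguments -/
theorem rel3 {A : Set M} {R : M → M → M → Prop} (hR : Pool.Agent.TH752.AR.Dfn LA A fun v => R (v 0) (v 1) (v 2))
    {s t u : (ℕ → M) → M} (hs : DF LA A s) (ht : DF LA A t) (hu : DF LA A u) :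
    Pool.Agent.TH752.AR.Dfn LA A fun v => R (s v) (t v) (u v) := by
  have h1 : Pool.Agent.TH752.AR.Dfn LA A fun w => w 2 = s (fun n => w (n + 3)) :=
    Pool.Agent.TH752.AR.Dfn.ren hs (fun n => match n with | 0 => 2 | n + 1 => n + 3)
  have h2 : Pool.Agent.TH752.AR.Dfn LA A fun w => w 1 = t (fun n => w (n + 3)) :=
    Pool.Agent.TH752.AR.Dfn.ren ht (fun n => match n with | 0 => 1 | n + 1 => n + 3)
  have h3 : Pool.Agent.TH752.AR.Dfn LA A fun w => w 0 = u (fun n => w (n + 3)) :=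
    Pool.Agent.TH752.AR.Dfn.ren hu (fun n => match n with | 0 => 0 | n + 1 => n + 3)
  refine (h1.and (h2.and (h3.and (hR.ren3 2 1 0)))).ex.ex.ex.congr fun v => ?_
  constructor
  · rintro ⟨x, y, z, e1, e2, e3, e4⟩
    have e1' : x = s v := e1
    have e2' : y = t v := e2
    have e3' : z = u v := e3
    have e4' : R x y z := e4
    rwa [e1', e2', e3'] at e4'
  · intro h
    exact ⟨_, _, _, rfl, rfl, rfl, h⟩

/-- the description of a state: `p` codes three sets, `c` is the number of the block -/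
def Qd (p c z : M) : Prop :=
  ∃ s a v, p = prN (prN s a) v ∧ ∃ y, (z = y + y + y + y ∧ EN y s) ∨
    (z = y + y + y + y + 1 ∧ EN y a) ∨ (z = y + y + y + y + 1 + 1 ∧ EN y v) ∨
    (z = y + y + y + y + 1 + 1 + 1 ∧ y = c)

theorem dfn_Qd (h : Ari LA M) : Pool.Agent.Helper227.EN.Dfn fun x : ℕ → M => Qd (x 0) (x 1) (x 2) := by
  refine dfn_of_dfa ?_
  have v : ∀ i, DF LA (∅ : Set M) fun w => w i := fun i => DF.var i
  have y4 : DF LA (∅ : Set M) fun w => w 0 + w 0 + w 0 + w 0 :=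
    h.add (h.add (h.add (v 0) (v 0)) (v 0)) (v 0)
  have y5 := h.add y4 (h.one (A := ∅))
  have y6 := h.add y5 (h.one (A := ∅))
  have y7 := h.add y6 (h.one (A := ∅))
  have b1 : Pool.Agent.TH752.AR.Dfn LA (∅ : Set M) fun w => (w 6 = w 0 + w 0 + w 0 + w 0 ∧ EN (w 0) (w 3)) :=
    (Pool.Agent.TH752.AR.Dfn.eqT (v 6) y4).and (h.dEN (v 0) (v 3))
  have b2 : Pool.Agent.TH752.AR.Dfn LA (∅ : Set M) fun w => (w 6 = w 0 + w 0 + w 0 + w 0 + 1 ∧ EN (w 0) (w 2)) :=
    (Pool.Agent.TH752.AR.Dfn.eqT (v 6) y5).and (h.dEN (v 0) (v 2))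
  have b3 : Pool.Agent.TH752.AR.Dfn LA (∅ : Set M) fun w => (w 6 = w 0 + w 0 + w 0 + w 0 + 1 + 1 ∧ EN (w 0) (w 1)) :=
    (Pool.Agent.TH752.AR.Dfn.eqT (v 6) y6).and (h.dEN (v 0) (v 1))
  have b4 : Pool.Agent.TH752.AR.Dfn LA (∅ : Set M) fun w => (w 6 = w 0 + w 0 + w 0 + w 0 + 1 + 1 + 1 ∧ w 0 = w 5) :=
    (Pool.Agent.TH752.AR.Dfn.eqT (v 6) y7).and (Pool.Agent.TH752.AR.Dfn.eqT (v 0) (v 5))
  have b5 := (b1.or (b2.or (b3.or b4))).ex
  have pr : ∀ {s t : (ℕ → M) → M}, DF LA (∅ : Set M) s → DF LA (∅ : Set M) t →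
      DF LA (∅ : Set M) fun w => prN (s w) (t w) := fun hs ht =>
    h.add (h.mul (h.add hs ht) (h.add hs ht)) hs
  have b6 : Pool.Agent.TH752.AR.Dfn LA (∅ : Set M) fun w => w 3 = prN (prN (w 2) (w 1)) (w 0) :=
    Pool.Agent.TH752.AR.Dfn.eqT (v 3) (pr (pr (v 2) (v 1)) (v 0))
  exact (b6.and b5).ex.ex.ex

open Classical in
/-- the sequence describing the state coded by the elements `s a v` and the number `i` -/
noncomputable def Xd (s a v : M) (i : ℕ) : ℕ → Bool := fun z =>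
  decide (Qd (prN (prN s a) v) (i : M) (z : M))

open Classical in
theorem Xd_iff (s a v : M) (i z : ℕ) :
    Xd s a v i z = true ↔ Qd (prN (prN s a) v) (i : M) (z : M) := by
  unfold Xd
  exact decide_eq_true_iff

/-- the set of standard numbers coded by `s` -/
def Sx (s : M) : Set ℕ := {k | EN (k : M) s}

theorem Qd_std (h : NPA M) (s a v : M) (i z : ℕ) : Qd (prN (prN s a) v) (i : M) (z : M) ↔
    ∃ y : ℕ, (z = 4 * y ∧ y ∈ Sx s) ∨ (z = 4 * y + 1 ∧ y ∈ Sx a) ∨ (z = 4 * y + 2 ∧ y ∈ Sx v) ∨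
      (z = 4 * y + 3 ∧ y = i) := by
  have hA := ari_of_npa h
  have c4 : ∀ y : ℕ, (y : M) + y + y + y = ((4 * y : ℕ) : M) := by
    intro y
    push_cast
    ring
  have c5 : ∀ y : ℕ, (y : M) + y + y + y + 1 = ((4 * y + 1 : ℕ) : M) := by
    intro y
    push_cast
    ring
  have c6 : ∀ y : ℕ, (y : M) + y + y + y + 1 + 1 = ((4 * y + 2 : ℕ) : M) := by
    intro y
    push_cast
    ring
  have c7 : ∀ y : ℕ, (y : M) + y + y + y + 1 + 1 + 1 = ((4 * y + 3 : ℕ) : M) := by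
    intro y
    push_cast
    ring
  constructor
  · rintro ⟨s', a', v', e, y, hy⟩
    obtain ⟨e1, rfl⟩ := hA.prN_inj e
    obtain ⟨rfl, rfl⟩ := hA.prN_inj e1
    have hyz : y ≤ (z : M) := by
      rcases hy with ⟨hy, -⟩ | ⟨hy, -⟩ | ⟨hy, -⟩ | ⟨hy, -⟩
      · rw [hy]; exact le_add_self
      · rw [hy]; exact le_add_self.trans le_self_add
      · rw [hy]; exact (le_add_self.trans le_self_add).trans le_self_add
      · rw [hy]; exact ((le_add_self.trans le_self_add).trans le_self_add).trans le_self_add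
    obtain ⟨y, -, rfl⟩ := std_below h.compat z y hyz
    rw [c7, c6, c5, c4] at hy
    refine ⟨y, ?_⟩
    rcases hy with ⟨hy, h1⟩ | ⟨hy, h1⟩ | ⟨hy, h1⟩ | ⟨hy, h1⟩
    · exact Or.inl ⟨Nat.cast_injective hy, h1⟩
    · exact Or.inr (Or.inl ⟨Nat.cast_injective hy, h1⟩)
    · exact Or.inr (Or.inr (Or.inl ⟨Nat.cast_injective hy, h1⟩))
    · exact Or.inr (Or.inr (Or.inr ⟨Nat.cast_injective hy, Nat.cast_injective h1⟩))
  · rintro ⟨y, hy⟩
    refine ⟨s, a, v, rfl, y, ?_⟩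
    rw [c7, c6, c5, c4]
    rcases hy with ⟨hy, h1⟩ | ⟨hy, h1⟩ | ⟨hy, h1⟩ | ⟨hy, h1⟩
    · exact Or.inl ⟨by rw [hy], h1⟩
    · exact Or.inr (Or.inl ⟨by rw [hy], h1⟩)
    · exact Or.inr (Or.inr (Or.inl ⟨by rw [hy], h1⟩))
    · exact Or.inr (Or.inr (Or.inr ⟨by rw [hy], by rw [h1]⟩))

theorem Des_Xd (h : NPA M) (s a v : M) (i : ℕ) : Des (Xd s a v i) i (Sx s) (Sx a) (Sx v) := by
  have key : ∀ z, Xd s a v i z = true ↔ _ := fun z => (Xd_iff s a v i z).trans (Qd_std h s a v i z)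
  refine ⟨fun x => ?_, fun x => ?_, fun x => ?_, fun x => ?_⟩
  · rw [key]
    constructor
    · rintro ⟨y, ⟨e, h1⟩ | ⟨e, h1⟩ | ⟨e, h1⟩ | ⟨e, h1⟩⟩
      · rwa [show x = y by omega]
      all_goals omega
    · exact fun h1 => ⟨x, Or.inl ⟨rfl, h1⟩⟩
  · rw [key]
    constructor
    · rintro ⟨y, ⟨e, h1⟩ | ⟨e, h1⟩ | ⟨e, h1⟩ | ⟨e, h1⟩⟩
      · omega
      · rwa [show x = y by omega]
      all_goals omega
    · exact fun h1 => ⟨x, Or.inr (Or.inl ⟨rfl, h1⟩)⟩
  · rw [key]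
    constructor
    · rintro ⟨y, ⟨e, h1⟩ | ⟨e, h1⟩ | ⟨e, h1⟩ | ⟨e, h1⟩⟩
      · omega
      · omega
      · rwa [show x = y by omega]
      · omega
    · exact fun h1 => ⟨x, Or.inr (Or.inr (Or.inl ⟨rfl, h1⟩))⟩
  · rw [key]
    constructor
    · rintro ⟨y, ⟨e, h1⟩ | ⟨e, h1⟩ | ⟨e, h1⟩ | ⟨e, h1⟩⟩
      · omega
      · omega
      · omega
      · rwa [show x = y by omega]
    · exact fun h1 => ⟨x, Or.inr (Or.inr (Or.inr ⟨rfl, h1⟩))⟩

/-- the definable notion of goodness up to a level -/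
theorem exists_R (h : NPA M) : ∃ R : M → M → M → Prop,
    (Pool.Agent.TH752.AR.Dfn LA (Set.univ : Set M) fun v => R (v 0) (v 1) (v 2)) ∧
    (∀ (s a v : M) (i : ℕ) (m : ℕ), Gd Qc m i (Sx s) (Sx a) (Sx v) →
      ∀ n : ℕ, n ≤ m → R (prN (prN s a) v) i n) ∧
    (∀ (s a v : M) (i : ℕ), (∀ n : ℕ, R (prN (prN s a) v) i n) →
      ∀ m : ℕ, Gd Qc m i (Sx s) (Sx a) (Sx v)) := by
  have hc := h.compat
  obtain ⟨eV, hV⟩ := wst_univ re_Vb
  -- the approximation as a primitive recursive function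
  let f : ℕ → ℕ := fun q => encode ((Nat.Partrec.Code.evaln q.unpair.1
    (Denumerable.ofNat Nat.Partrec.Code eV) q.unpair.2).isSome)
  have hf : Nat.Primrec f := by
    refine Primrec.nat_iff.1 ?_
    have h1 : Primrec fun q : ℕ => Nat.Partrec.Code.evaln q.unpair.1
        (Denumerable.ofNat Nat.Partrec.Code eV) q.unpair.2 :=
      Nat.Partrec.Code.primrec_evaln.comp (((Primrec.fst.comp Primrec.unpair).pair
        (Primrec.const _)).pair (Primrec.snd.comp Primrec.unpair))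
    exact Primrec.encode.comp (Primrec.option_isSome.comp h1)
  have hf1 : ∀ (n : ℕ) (σ : List Bool), f (Nat.pair n (encode σ)) = 0 ↔
      ¬ wst (List Bool) eV n σ = true := by
    intro n σ
    simp only [f, wst, Nat.unpair_pair]
    cases (Nat.Partrec.Code.evaln n (Denumerable.ofNat Nat.Partrec.Code eV) (encode σ)).isSome <;>
      simp
  obtain ⟨P, hP, hP'⟩ := rep_pre hc Qd (dfn_Qd (ari_of_npa h))
  obtain ⟨GP, hGP, hGP', -⟩ := repF_pair hc
  obtain ⟨GF, hGF, hGF'⟩ := repF_primrec hc f hf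
  obtain ⟨bc, bnot, band, bor, bimp, biff⟩ := dfn_bool (M := M)
  obtain ⟨tv, tn, tadd', tmul', teq, tlt, tle⟩ := trm_ops hc
  have t0 : Trm (fun _ : ℕ → M => (0 : M)) := by
    have := tn 0
    simpa using this
  let R : M → M → M → Prop := fun p c n => ∀ k, k ≤ n → ∀ y q, (P p c k y ∧ GP n y q) → GF q 0
  have hR : Pool.Agent.Helper227.EN.Dfn fun x : ℕ → M => R (x 0) (x 1) (x 2) := by
    have d1 : Pool.Agent.Helper227.EN.Dfn (fun x : ℕ → M => P (x 0) (x 1) (x 3) (x 4)) :=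
      rep_class_s4 P hP (fun x => x 0) (fun x => x 1) (fun x => x 3) (fun x => x 4)
        (tv 0) (tv 1) (tv 3) (tv 4)
    have d2 : Pool.Agent.Helper227.EN.Dfn (fun x : ℕ → M => GP (x 2) (x 4) (x 5)) :=
      rep_class_s3 GP hGP (fun x => x 2) (fun x => x 4) (fun x => x 5) (tv 2) (tv 4) (tv 5)
    have d3 : Pool.Agent.Helper227.EN.Dfn (fun x : ℕ → M => GF (x 5) 0) :=
      rep_class_s2 GF hGF (fun x => x 5) (fun _ => 0) (tv 5) t0
    have d4 := bimp _ _ (band _ _ d1 d2) d3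
    have d5 := dfn_all (fun x q => (P (x 0) (x 1) (x 3) (x 4) ∧ GP (x 2) (x 4) q) → GF q 0) 5
      (fun x y v => by simp) d4
    have d6 := dfn_all (fun x y => ∀ q, (P (x 0) (x 1) (x 3) y ∧ GP (x 2) y q) → GF q 0) 4
      (fun x y v => by simp) d5
    have d7 := bimp _ _ (tle (fun x => x 3) (fun x => x 2) (tv 3) (tv 2)) d6
    exact dfn_all (fun x k => k ≤ x 2 → ∀ y q, (P (x 0) (x 1) k y ∧ GP (x 2) y q) → GF q 0) 3
      (fun x y v => by simp) d7
  have key : ∀ (s a v : M) (i n : ℕ), R (prN (prN s a) v) i n ↔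
      ∀ k, k ≤ n → ¬ wst (List Bool) eV n (pre (Xd s a v i) k) = true := by
    intro s a v i n
    have hX := hP' (prN (prN s a) v) (i : M) (Xd s a v i) (fun z => (Xd_iff s a v i z).symm)
    constructor
    · intro h1 k hk
      rw [← hf1]
      have h2 := h1 (k : M) (by exact_mod_cast hk) _ _ ⟨(hX k _).2 rfl, (hGP' n _ _).2 rfl⟩
      rw [hGF'] at h2
      exact_mod_cast h2.symm
    · rintro h1 k hk y q ⟨h2, h3⟩
      obtain ⟨k, hk', rfl⟩ := std_below hc n k hk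
      rw [hX] at h2
      subst h2
      rw [hGP'] at h3
      subst h3
      rw [hGF', (hf1 n _).2 (h1 k hk')]
      simp
  refine ⟨R, dfa_of_dfn hR _, fun s a v i m hG n hn => ?_, fun s a v i hR m => ?_⟩
  · rw [key]
    intro k hk hw
    exact not_Vb_of_Gd (Des_Xd h s a v i) hG k (hk.trans hn) ((hV _).2 ⟨n, hw⟩)
  · refine Gd_of_not_Vb (Des_Xd h s a v i) (fun k hk => ?_) m
    obtain ⟨t, ht⟩ := (hV _).1 hk
    exact (key s a v i (max k t)).1 (hR _) k (le_max_left _ _) (wst_mono (le_max_right _ _) ht)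

end

end Pool.Agent.Run7.h57.MUB
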