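import Pool.Agent.Run7.h57.MUB.N1

/-!
The model side: bounds for codes, and the table of the selection function.
-/

set_option autoImplicit false
set_option linter.unusedSectionVars false
set_option synthInstance.maxSize 2000

namespace Pool.Agent.Run7.h57.MUB

open FirstOrder FirstOrder.Language
open Encodable Pool.Agent.Helper578.JD Pool.Agent.Helper578.JD.Oracle Pool.Agent.Helper578.JD.Defs
open Pool.Agent.Helper578.JD.RE Pool.Agent.H623R3.JC Pool.Agent.Helper227.EN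
open Pool.Agent.Helper227 (pre)
open Pool.Agent.TH752.AR (prN EN Ari DF)
open Pool.Agent.TH754.PK (PAm Df Tm iBool iAnd iOr iImp iNot iIff iEx iAll iVar iPar iEq iLt iLe iAdd
  iMul iPr lnp gnp lt_succ z_le)


section
variable {M : Type} [CommSemiring M] [LinearOrder M] [IsStrictOrderedRing M]
  [CanonicallyOrderedAdd M] [LA.Structure M]

theorem exists_bound (h : NPA M) : ∃ b : M, (∀ n : ℕ, (n : M) < b) ∧
    ∀ (Z : Set ℕ) (T : M → Prop), Pool.Agent.TH752.AR.Dfn LA (Set.univ : Set M) (fun v => T (v 0)) →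
      (∀ n : ℕ, T n ↔ n ∈ Z) → ∃ s, s < b ∧ Sx s = Z := by
  have hA := ari_of_npa h
  obtain ⟨c0, hc0⟩ := h.nonstd
  obtain ⟨B, hB⟩ := hA.bounded_codes c0
  refine ⟨B + c0, fun n => (hc0 n).trans_le le_add_self, fun Z T hT hTZ => ?_⟩
  obtain ⟨s, hs⟩ := hA.exists_code hT c0
  obtain ⟨s', hs', h1⟩ := hB s
  refine ⟨s', hs'.trans_le le_self_add, ?_⟩
  ext n
  show EN (n : M) s' ↔ _
  rw [h1 _ (hc0 n), hs _ (hc0 n), hTZ]

/-- finite sets are definable -/
theorem fin_dfn (Z : Finset ℕ) :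
    ∃ T : M → Prop, Pool.Agent.TH752.AR.Dfn LA (Set.univ : Set M) (fun v => T (v 0)) ∧ ∀ n : ℕ, T n ↔ n ∈ Z := by
  classical
  induction Z using Finset.induction_on with
  | empty => exact ⟨fun _ => False, Pool.Agent.TH752.AR.Dfn.bool _, fun n => by simp⟩
  | insert a Z ha ih =>
    obtain ⟨T, hT, hT'⟩ := ih
    refine ⟨fun x => T x ∨ x = (a : M),
      hT.or (Pool.Agent.TH752.AR.Dfn.eqT (DF.var 0) (DF.par (a : M))), fun n => ?_⟩
    show (T (n : M) ∨ (n : M) = (a : M)) ↔ _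
    rw [Finset.mem_insert, hT', Nat.cast_inj]
    exact or_comm

theorem prN_mono {x y x' y' : M} (h1 : x ≤ x') (h2 : y ≤ y') : prN x y ≤ prN x' y' := by
  unfold prN
  have h3 := add_le_add h1 h2
  exact add_le_add (mul_le_mul' h3 h3) h1

/-- the test for the table -/
def TT (a0 b0 x : M) : Prop := (x + 1) * b0 + 1 ∣ a0

theorem exists_table (h : NPA M) (R : M → M → M → Prop)
    (hR : Pool.Agent.TH752.AR.Dfn LA (Set.univ : Set M) fun v => R (v 0) (v 1) (v 2)) (b : M) (hb : ∀ n : ℕ, (n : M) < b) :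
    ∃ a0 b0 : M,
      (∀ c s a, c < b → s < b → a < b → ∃ v, v < b ∧ TT a0 b0 (prN (prN (prN c s) a) v)) ∧
      (∀ c s a v v', c < b → s < b → a < b → v < b → v' < b →
        TT a0 b0 (prN (prN (prN c s) a) v) → TT a0 b0 (prN (prN (prN c s) a) v') → v = v') ∧
      (∀ (i : ℕ) (s a v : M), s < b → a < b → v < b → TT a0 b0 (prN (prN (prN (i : M) s) a) v) →
        (∀ m : ℕ, ∃ v', v' < b ∧ ∀ n : ℕ, n ≤ m → R (prN (prN s a) v') i n) →
        ∀ n : ℕ, R (prN (prN s a) v) i n) := by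
  have hA := ari_of_npa h
  have : PAm M := pam_of_npa h
  have iR : ∀ (s t u : (ℕ → M) → M) [Tm s] [Tm t] [Tm u], Df fun v => R (s v) (t v) (u v) :=
    fun s t u hs ht hu => ⟨rel3 hR hs.out ht.out hu.out⟩
  let Okk : M → M → M → M → M → Prop := fun c s a v m => ∀ k, k ≤ m → R (prN (prN s a) v) c k
  let Best : M → M → M → M → M → Prop := fun c s a v m => v < b ∧ m < b ∧
    (∀ k, k ≤ m → R (prN (prN s a) v) c k) ∧ ∀ v' m', v' < b → m' < b →
      (∀ k, k ≤ m' → R (prN (prN s a) v') c k) → m' ≤ m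
  let Tc : M → M → M → M → Prop := fun c s a v => (∃ m, Best c s a v m) ∧
    ∀ v', v' < v → ¬ ∃ m, Best c s a v' m
  let Tt : M → M → M → M → Prop := fun c s a v => Tc c s a v ∨ ((¬ ∃ v', Tc c s a v') ∧ v = 0)
  have dS : Df fun w : ℕ → M => ∃ c s a v, w 0 = prN (prN (prN c s) a) v ∧ Tt c s a v := by
    simp only [Tt, Tc, Best]
    infer_instance
  obtain ⟨a0, b0, hab⟩ := hA.exists_div_code
    (S := fun x => ∃ c s a v, x = prN (prN (prN c s) a) v ∧ Tt c s a v) dS.out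
    (prN (prN (prN b b) b) b + 1)
  have key : ∀ c s a v, c < b → s < b → a < b → v < b →
      (TT a0 b0 (prN (prN (prN c s) a) v) ↔ Tt c s a v) := by
    intro c s a v hc hs ha hv
    unfold TT
    rw [hab _ (lt_succ.2 (prN_mono (prN_mono (prN_mono hc.le hs.le) ha.le) hv.le))]
    constructor
    · rintro ⟨c', s', a', v', e, h1⟩
      obtain ⟨e1, rfl⟩ := hA.prN_inj e
      obtain ⟨e2, rfl⟩ := hA.prN_inj e1
      obtain ⟨rfl, rfl⟩ := hA.prN_inj e2
      exact h1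
    · intro h1
      exact ⟨c, s, a, v, rfl, h1⟩
  have uT : ∀ c s a v v', Tt c s a v → Tt c s a v' → v = v' := by
    rintro c s a v v' (⟨h1, h2⟩ | ⟨h1, h2⟩) (⟨h3, h4⟩ | ⟨h3, h4⟩)
    · rcases lt_trichotomy v v' with h5 | h5 | h5
      · exact absurd h1 (h4 v h5)
      · exact h5
      · exact absurd h3 (h2 v' h5)
    · exact absurd ⟨v, h1, h2⟩ h3
    · exact absurd ⟨v', h3, h4⟩ h1
    · rw [h2, h4]
  refine ⟨a0, b0, ?_, ?_, ?_⟩
  · intro c s a hc hs ha
    by_cases h1 : ∃ v', Tc c s a v'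
    · obtain ⟨v, hv⟩ := h1
      have hvb : v < b := by
        obtain ⟨⟨m, hm⟩, -⟩ := hv
        exact hm.1
      exact ⟨v, hvb, (key c s a v hc hs ha hvb).2 (Or.inl hv)⟩
    · have hb0 : (0 : M) < b := by simpa using hb 0
      exact ⟨0, hb0, (key c s a 0 hc hs ha hb0).2 (Or.inr ⟨h1, rfl⟩)⟩
  · intro c s a v v' hc hs ha hv hv' h1 h2
    exact uT c s a v v' ((key c s a v hc hs ha hv).1 h1) ((key c s a v' hc hs ha hv').1 h2)
  · intro i s a v hs ha hv h1 hm n
    have hT := (key (i : M) s a v (hb i) hs ha hv).1 h1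
    -- every standard level is reached
    have hlev : ∀ m : ℕ, ∃ v', v' < b ∧ ∀ k, k ≤ (m : M) → R (prN (prN s a) v') i k := by
      intro m
      obtain ⟨v', hv', h2⟩ := hm m
      refine ⟨v', hv', fun k hk => ?_⟩
      obtain ⟨k, hk', rfl⟩ := std_below h.compat m k hk
      exact h2 k hk'
    -- the maximum level
    obtain ⟨m, ⟨hmb, v0, hv0, hm0⟩, hmax⟩ := gnp (fun m => m < b ∧ ∃ v', v' < b ∧
      ∀ k, k ≤ m → R (prN (prN s a) v') i k) (by
        obtain ⟨v', hv', h2⟩ := hlev 0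
        exact ⟨((0 : ℕ) : M), hb 0, v', hv', h2⟩) (n := b) (fun x hx => hx.1)
    have hB : Best i s a v0 m := ⟨hv0, hmb, hm0, fun v' m' h3 h4 h5 => hmax m' ⟨h4, v', h3, h5⟩⟩
    have dB : Df fun w : ℕ → M => ∃ m, Best i s a (w 0) m := by
      simp only [Best]
      infer_instance
    obtain ⟨v1, hv1, hv1'⟩ := lnp (fun v => ∃ m, Best i s a v m) (hS := dB) ⟨v0, m, hB⟩
    rcases hT with ⟨⟨m1, hb1, hb2, hb3, hb4⟩, -⟩ | ⟨h2, -⟩
    · obtain ⟨v', hv', h3⟩ := hlev n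
      exact hb3 _ (hb4 v' n hv' (hb n) h3)
    · exact absurd ⟨v1, hv1, hv1'⟩ h2

end

end Pool.Agent.Run7.h57.MUB
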