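import Pool.Agent.Run7.h57.MUB.Comb
import Pool.Agent.H623R3.JC.Tool
import Pool.Agent.Helper227.ENJ.P_rep_pre

/-!
The concrete notion `Qc`, and its computability.
-/

set_option autoImplicit false

namespace Pool.Agent.Run7.h57.MUB

open Encodable Pool.Agent.Helper578.JD Pool.Agent.Helper578.JD.Oracle Pool.Agent.Helper578.JD.Defs
open Pool.Agent.Helper578.JD.RE Pool.Agent.H623R3.JC Pool.Agent.Helper227.EN

/-- the index for the claims `b` -/
def sel (b : Bool) (e : ℕ) : ℕ := bif b then e.unpair.1 else e.unpair.2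

/-- at stage `s` the oracle `P` is seen to claim that the truth value of `e` is `b` -/
def Cl (b : Bool) (e s : ℕ) (P : Set ℕ) : Prop :=
  ∃ c : Info, encode c < s ∧ (∀ x ∈ c.1, x < s) ∧ (∀ x ∈ c.2, x < s) ∧ Ok P c ∧
    wst (ℕ × Info) (sel b e) s (e, c) = true

/-- the claim `b` came before the stage `n`, and before the claim `!b` -/
def Qc (b : Bool) (e n : ℕ) (P : Set ℕ) : Prop :=
  ∃ s, s ≤ n ∧ Cl b e s P ∧ ∀ s', s' ≤ s → ¬ Cl (!b) e s' P

theorem Cl_loc {b : Bool} {e s : ℕ} {P P' : Set ℕ} (h : ∀ z < s, z ∈ P ↔ z ∈ P') :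
    Cl b e s P ↔ Cl b e s P' := by
  unfold Cl
  refine exists_congr fun c => and_congr_right fun _ => and_congr_right fun h1 =>
    and_congr_right fun h2 => and_congr_left fun _ => ?_
  unfold Ok
  exact and_congr (forall₂_congr fun x hx => h x (h1 x hx))
    (forall₂_congr fun x hx => not_congr (h x (h2 x hx)))

theorem Qc_QS : QS Qc where
  loc := by
    rintro b e n P P' h ⟨s, hs, h1, h2⟩
    refine ⟨s, hs, (Cl_loc fun z hz => h z (hz.trans_le hs)).1 h1, fun s' hs' h3 => h2 s' hs' ?_⟩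
    exact (Cl_loc fun z hz => h z (hz.trans_le (hs'.trans hs))).2 h3
  mono := by
    rintro b e n m P h ⟨s, hs, h1⟩
    exact ⟨s, hs.trans h, h1⟩
  excl := by
    rintro e n P ⟨s, hs, h1, h2⟩ ⟨t, ht, h3, h4⟩
    rcases le_total s t with h | h
    · exact h4 s h h1
    · exact h2 t h h3

/-- if `D` is computable from `B` then some requirement is violated -/
theorem Qc_diag {B D : Set ℕ} (h : Red D B) : ∃ e n, Vi Qc e D n B := by
  obtain ⟨⟨R1, hR1, h1⟩, ⟨R0, hR0, h0⟩⟩ := Red_iff.1 h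
  obtain ⟨e1, he1⟩ := wst_univ hR1
  obtain ⟨e0, he0⟩ := wst_univ hR0
  let e := Nat.pair e1 e0
  have hs1 : sel true e = e1 := by simp [sel, e]
  have hs0 : sel false e = e0 := by simp [sel, e]
  have key : ∀ (b : Bool) (R : ℕ → Info → Prop), (∀ x : ℕ × Info, R x.1 x.2 ↔
      ∃ s, wst (ℕ × Info) (sel b e) s x = true) →
      ((∃ c, R e c ∧ Ok B c) ↔ ∃ s, Cl b e s B) := by
    intro b R hR
    constructor
    · rintro ⟨c, hc, hok⟩
      obtain ⟨s, hs⟩ := (hR (e, c)).1 hc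
      refine ⟨s + encode c + 1 + c.1.sum + c.2.sum, c, by omega, fun x hx => ?_, fun x hx => ?_, hok,
        wst_mono (by omega) hs⟩
      · have := List.single_le_sum (by simp) x hx
        omega
      · have := List.single_le_sum (by simp) x hx
        omega
    · rintro ⟨s, c, -, -, -, hok, hw⟩
      exact ⟨c, (hR (e, c)).2 ⟨s, hw⟩, hok⟩
  have k1 := key true R1 (by rw [hs1]; exact he1)
  have k0 := key false R0 (by rw [hs0]; exact he0)
  by_cases hD : e ∈ D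
  · obtain ⟨s, hs⟩ := k1.1 ((h1 e).1 hD)
    refine ⟨e, s, Or.inl ⟨hD, s, le_rfl, hs, fun s' _ h2 => ?_⟩⟩
    exact ((h0 e).2 (k0.2 ⟨s', h2⟩)) hD
  · obtain ⟨s, hs⟩ := k0.1 ((h0 e).1 hD)
    refine ⟨e, s, Or.inr ⟨hD, s, le_rfl, hs, fun s' _ h2 => ?_⟩⟩
    exact hD ((h1 e).2 (k1.2 ⟨s', h2⟩))

/-! ### computability -/

/-- the set coded by the bits of `m` -/
def Pm (m : ℕ) : Set ℕ := {x | rpbit m x = true}

section comp
variable {α : Type} [Primcodable α] {A : Set ℕ}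

theorem ci_rpbit {f g : α → ℕ} (hf : CompIn A f) (hg : CompIn A g) :
    CompIn A fun a => rpbit (f a) (g a) :=
  CompIn.comp₂ rp_primrec_bit.to_comp hf hg

attribute [fun_prop] ci_rpbit

theorem dec_bit {f g : α → ℕ} (hf : CompIn A f) (hg : CompIn A g) :
    DecIn A fun a => f a ∈ Pm (g a) :=
  DecIn.eq (ci_rpbit hg hf) (ci_const true)

theorem dec_tt {f : α → Bool} (hf : CompIn A f) : DecIn A fun a => f a = true :=
  DecIn.eq hf (ci_const true)

theorem DecIn.ex_lt' {S : α → ℕ → Prop} (hS : DecIn A fun x : α × ℕ => S x.1 x.2)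
    {f : α → ℕ} (hf : CompIn A f) : DecIn A fun a => ∃ i, i < f a ∧ S a i :=
  (DecIn.ex_lt hS hf).of_eq fun a => by simp

theorem DecIn.all_lt' {S : α → ℕ → Prop} (hS : DecIn A fun x : α × ℕ => S x.1 x.2)
    {f : α → ℕ} (hf : CompIn A f) : DecIn A fun a => ∀ i, i < f a → S a i :=
  (DecIn.all_lt hS hf).of_eq fun a => by simp

theorem DecIn.ex_le' {S : α → ℕ → Prop} (hS : DecIn A fun x : α × ℕ => S x.1 x.2)
    {f : α → ℕ} (hf : CompIn A f) : DecIn A fun a => ∃ i, i ≤ f a ∧ S a i :=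
  (DecIn.ex_lt hS (f := fun a => f a + 1) (by fun_prop)).of_eq fun a => by simp

theorem DecIn.all_le' {S : α → ℕ → Prop} (hS : DecIn A fun x : α × ℕ => S x.1 x.2)
    {f : α → ℕ} (hf : CompIn A f) : DecIn A fun a => ∀ i, i ≤ f a → S a i :=
  (DecIn.all_lt hS (f := fun a => f a + 1) (by fun_prop)).of_eq fun a => by simp

theorem ci_sel (b : Bool) {f : α → ℕ} (hf : CompIn A f) : CompIn A fun a => sel b (f a) := by
  cases b
  · show CompIn A fun a => (f a).unpair.2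
    fun_prop
  · show CompIn A fun a => (f a).unpair.1
    fun_prop

theorem ci_ofNat {β : Type} [Denumerable β] {f : α → ℕ} (hf : CompIn A f) :
    CompIn A fun a => (Denumerable.ofNat β (f a) : β) :=
  CompIn.comp_of (Computable.ofNat β) hf

theorem dec_Cl (b : Bool) {f g h : α → ℕ} (hf : CompIn A f) (hg : CompIn A g) (hh : CompIn A h) :
    DecIn A fun a => Cl b (f a) (g a) (Pm (h a)) := by
  have h0 : DecIn A fun y : ((ℕ × ℕ) × ℕ) × ℕ =>
      (∀ x ∈ (Denumerable.ofNat Info y.2).1, x < y.1.1.2) ∧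
      (∀ x ∈ (Denumerable.ofNat Info y.2).2, x < y.1.1.2) ∧
      ((∀ x ∈ (Denumerable.ofNat Info y.2).1, x ∈ Pm y.1.2) ∧
       (∀ x ∈ (Denumerable.ofNat Info y.2).2, ¬ x ∈ Pm y.1.2)) ∧
      wst (ℕ × Info) (sel b y.1.1.1) y.1.1.2 (y.1.1.1, Denumerable.ofNat Info y.2) = true := by
    have hl : CompIn A fun y : ((ℕ × ℕ) × ℕ) × ℕ => Denumerable.ofNat Info y.2 :=
      ci_ofNat (by fun_prop)
    refine DecIn.and ?_ (DecIn.and ?_ (DecIn.and (DecIn.and ?_ ?_) ?_))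
    · refine DecIn.all_mem (S := fun (y : ((ℕ × ℕ) × ℕ) × ℕ) x => x < y.1.1.2) ?_ (ci_fst hl)
      exact DecIn.lt (by fun_prop) (by fun_prop)
    · refine DecIn.all_mem (S := fun (y : ((ℕ × ℕ) × ℕ) × ℕ) x => x < y.1.1.2) ?_ (ci_snd hl)
      exact DecIn.lt (by fun_prop) (by fun_prop)
    · refine DecIn.all_mem (S := fun (y : ((ℕ × ℕ) × ℕ) × ℕ) x => x ∈ Pm y.1.2) ?_ (ci_fst hl)
      exact dec_bit (by fun_prop) (by fun_prop)
    · refine DecIn.all_mem (S := fun (y : ((ℕ × ℕ) × ℕ) × ℕ) x => ¬ x ∈ Pm y.1.2) ?_ (ci_snd hl)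
      exact (dec_bit (by fun_prop) (by fun_prop)).not
    · refine dec_tt ?_
      exact CompIn.comp (f := fun p : (ℕ × ℕ) × (ℕ × Info) => wst (ℕ × Info) p.1.1 p.1.2 p.2)
        (g := fun y : ((ℕ × ℕ) × ℕ) × ℕ =>
          ((sel b y.1.1.1, y.1.1.2), (y.1.1.1, Denumerable.ofNat Info y.2)))
        (CompIn.of_comp wst_comp)
        (((ci_sel b (by fun_prop)).pair (by fun_prop)).pair (CompIn.pair (by fun_prop) hl))
  have h1 : DecIn A fun y : (ℕ × ℕ) × ℕ => Cl b y.1.1 y.1.2 (Pm y.2) := by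
    refine (DecIn.ex_lt' (S := fun (y : (ℕ × ℕ) × ℕ) k =>
      (∀ x ∈ (Denumerable.ofNat Info k).1, x < y.1.2) ∧
      (∀ x ∈ (Denumerable.ofNat Info k).2, x < y.1.2) ∧
      ((∀ x ∈ (Denumerable.ofNat Info k).1, x ∈ Pm y.2) ∧
       (∀ x ∈ (Denumerable.ofNat Info k).2, ¬ x ∈ Pm y.2)) ∧
      wst (ℕ × Info) (sel b y.1.1) y.1.2 (y.1.1, Denumerable.ofNat Info k) = true) h0
      (f := fun y => y.1.2) (by fun_prop)).of_eq fun y => ?_
    unfold Cl
    constructor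
    · rintro ⟨k, hk, h2⟩
      exact ⟨Denumerable.ofNat Info k, by simpa using hk, h2⟩
    · rintro ⟨c, hc, h2⟩
      refine ⟨encode c, hc, ?_⟩
      rw [Denumerable.ofNat_encode]
      exact h2
  exact DecIn.comp (P := fun y : (ℕ × ℕ) × ℕ => Cl b y.1.1 y.1.2 (Pm y.2))
    (f := fun a => ((f a, g a), h a)) h1 (by fun_prop)

theorem dec_Qc (b : Bool) {f g h : α → ℕ} (hf : CompIn A f) (hg : CompIn A g) (hh : CompIn A h) :
    DecIn A fun a => Qc b (f a) (g a) (Pm (h a)) := by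
  have h1 : DecIn A fun y : (ℕ × ℕ) × ℕ => Qc b y.1.1 y.1.2 (Pm y.2) := by
    refine DecIn.ex_le' (S := fun (y : (ℕ × ℕ) × ℕ) s => Cl b y.1.1 s (Pm y.2) ∧
      ∀ s', s' ≤ s → ¬ Cl (!b) y.1.1 s' (Pm y.2)) (DecIn.and ?_ ?_) (f := fun y => y.1.2)
      (by fun_prop)
    · exact dec_Cl b (by fun_prop) (by fun_prop) (by fun_prop)
    · refine DecIn.all_le' (S := fun (y : ((ℕ × ℕ) × ℕ) × ℕ) s' => ¬ Cl (!b) y.1.1.1 s' (Pm y.1.2))
        (DecIn.not ?_) (f := fun y => y.2) (by fun_prop)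
      exact dec_Cl (!b) (by fun_prop) (by fun_prop) (by fun_prop)
  exact DecIn.comp (P := fun y : (ℕ × ℕ) × ℕ => Qc b y.1.1 y.1.2 (Pm y.2))
    (f := fun a => ((f a, g a), h a)) h1 (by fun_prop)

end comp

end Pool.Agent.Run7.h57.MUB
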