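import Pool.Statements.S14484
import Pool.Agent.Run7.h57.MUB.Bridge2

set_option autoImplicit false
open FirstOrder FirstOrder.Language
open scoped Classical
open Pool Pool.MP_241a35_lc

namespace Pool.Agent.Run7.h57.MUB.TAcase

/-- The negation of the preceding statement: There is a countable nonstandard model of true arithmetic, presented on ℕ, whose diagram computes every arithmetical set, and every degree below it that computes all arithmetical sets is equivalent to it. -/
theorem result :
    ¬ (∀ Std : (Language.mk (fun _ => Empty) (fun a => Fin (if a = 3 then 2 else 0))).Structure ℕ,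
      (∀ (n : ℕ)
        (r : (Language.mk (fun _ => Empty) (fun a => Fin (if a = 3 then 2 else 0))).Relations n)
        (xs : Fin n → ℕ),
          Structure.RelMap r xs ↔
            ∃ i j k : Fin n, i.val = 0 ∧ j.val = 1 ∧ k.val = 2 ∧
              ((Fin.val r = 0 ∧ xs i + xs j = xs k) ∨ (Fin.val r = 1 ∧ xs i * xs j = xs k))) →
      ∃ (M : Type)
        (A : (Language.mk (fun _ => Empty) (fun a => Fin (if a = 3 then 2 else 0))).Structure M)
        (e : M ≃ ℕ) (p q : M → M → M) (D : ℕ → ℕ),
        (∀ (n : ℕ)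
          (r : (Language.mk (fun _ => Empty) (fun a => Fin (if a = 3 then 2 else 0))).Relations n)
          (xs : Fin n → M),
            Structure.RelMap r xs ↔
              ∃ i j k : Fin n, i.val = 0 ∧ j.val = 1 ∧ k.val = 2 ∧
                ((Fin.val r = 0 ∧ p (xs i) (xs j) = xs k) ∨ (Fin.val r = 1 ∧ q (xs i) (xs j) = xs k))) ∧
        D = (fun m : ℕ => Nat.pair (e (p (e.symm m.unpair.1) (e.symm m.unpair.2)))
                (e (q (e.symm m.unpair.1) (e.symm m.unpair.2)))) ∧
        (Language.mk (fun _ => Empty) (fun a => Fin (if a = 3 then 2 else 0))).ElementarilyEquivalent M ℕ ∧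
        IsEmpty ((Language.mk (fun _ => Empty) (fun a => Fin (if a = 3 then 2 else 0))).Equiv M ℕ) ∧
        (∀ S : Set ℕ,
          (∅ : Set ℕ).Definable (Language.mk (fun _ => Empty) (fun a => Fin (if a = 3 then 2 else 0)))
            {v : Fin 1 → ℕ | v 0 ∈ S} →
          TuringReducible (PFun.lift (fun m : ℕ => if m ∈ S then 1 else 0)) (PFun.lift D)) ∧
        (∀ g : ℕ → ℕ,
          TuringReducible (PFun.lift g) (PFun.lift D) →
          (∀ S : Set ℕ,
            (∅ : Set ℕ).Definable (Language.mk (fun _ => Empty) (fun a => Fin (if a = 3 then 2 else 0)))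
              {v : Fin 1 → ℕ | v 0 ∈ S} →
            TuringReducible (PFun.lift (fun m : ℕ => if m ∈ S then 1 else 0)) (PFun.lift g)) →
          TuringReducible (PFun.lift D) (PFun.lift g))) := by
  intro h
  let Std : (Language.mk (fun _ => Empty) (fun a => Fin (if a = 3 then 2 else 0))).Structure ℕ :=
    { funMap := fun {_} f => Empty.elim f
      RelMap := fun {n} r xs => ∃ i j k : Fin n, i.val = 0 ∧ j.val = 1 ∧ k.val = 2 ∧
        ((Fin.val r = 0 ∧ xs i + xs j = xs k) ∨ (Fin.val r = 1 ∧ xs i * xs j = xs k)) }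
  obtain ⟨M, A, e, p, q, D, hM, hD, hEE, hNI, -, h2⟩ := h Std fun n r xs => Iff.rfl
  obtain ⟨B, h3, h4, h5⟩ := Pool.Agent.Run7.h57.MUB.no_min (fun n r xs => Iff.rfl) M e p q hM D hD
    hEE hNI
  refine h5 (h2 (Pool.Agent.Helper578.JD.Defs.chiN B) h3 fun S hS => ?_)
  have h6 : (fun m : ℕ => if m ∈ S then 1 else 0) = Pool.Agent.Helper578.JD.Defs.chiN S := by
    funext m
    unfold Pool.Agent.Helper578.JD.Defs.chiN
    by_cases hm : m ∈ S
    · rw [if_pos hm]
    · rw [if_neg hm]
  rw [h6]
  exact h4 S hS

end Pool.Agent.Run7.h57.MUB.TAcase
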