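import Pool.Agent.Run7.h57.MUB.Q

/-!
The predicate not a good next state is computably enumerable.
-/

set_option autoImplicit false

namespace Pool.Agent.Run7.h57.MUB

open Encodable Pool.Agent.Helper578.JD Pool.Agent.Helper578.JD.Oracle Pool.Agent.Helper578.JD.Defs
open Pool.Agent.Helper578.JD.RE Pool.Agent.H623R3.JC Pool.Agent.Helper227.EN

/-- code of a quadruple -/
def tup (k t ρ x : ℕ) : ℕ := Nat.pair (Nat.pair k t) (Nat.pair ρ x)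

/-- `ρ` is the code of the history before block `k` of the set coded by `m` -/
def His (n k m ρ : ℕ) : Prop := ρ < 2 ^ n ∧ ∀ z, z < n → (z ∈ Pm ρ ↔ z ∈ Pm m ∧ blk z < k)

theorem Pm_lt {n m z : ℕ} (hm : m < 2 ^ n) (hz : z ∈ Pm m) : z < n := by
  by_contra h
  push Not at h
  have h1 : m / 2 ^ z = 0 := Nat.div_eq_of_lt (hm.trans_le (Nat.pow_le_pow_right (by norm_num) h))
  have h2 : rpbit m z = true := hz
  unfold rpbit at h2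
  rw [h1] at h2
  simp at h2

theorem His.eq {n k m ρ : ℕ} (h : His n k m ρ) : Pm ρ = hs n k (Pm m) := by
  ext z
  constructor
  · intro hz
    have h1 := Pm_lt h.1 hz
    exact ⟨((h.2 z h1).1 hz).1, h1, ((h.2 z h1).1 hz).2⟩
  · rintro ⟨h1, h2, h3⟩
    exact (h.2 z h2).2 ⟨h1, h3⟩

theorem exists_Pm (n : ℕ) (X : Set ℕ) : ∃ m, m < 2 ^ n ∧ ∀ z, z < n → (z ∈ Pm m ↔ z ∈ X) := by
  classical
  obtain ⟨m, hm, h⟩ := rp_exists n (fun z => decide (z ∈ X))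
  refine ⟨m, hm, fun z hz => ?_⟩
  show rpbit m z = true ↔ _
  rw [h z hz]
  simp

theorem exists_His (n k m : ℕ) : ∃ ρ, His n k m ρ := by
  obtain ⟨ρ, h1, h2⟩ := exists_Pm n {z | z ∈ Pm m ∧ blk z < k}
  exact ⟨ρ, h1, h2⟩

theorem Pm_inj {n m m' : ℕ} (hm : m < 2 ^ n) (hm' : m' < 2 ^ n) (h : Pm m = Pm m') : m = m' := by
  induction n generalizing m m' with
  | zero => simp at hm hm'; omega
  | succ n ih =>
    have h0 : ∀ i, rpbit m i = rpbit m' i := by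
      intro i
      have := Set.ext_iff.1 h i
      have h1 : (rpbit m i = true) ↔ (rpbit m' i = true) := this
      rcases hb : rpbit m i with _ | _ <;> rcases hb' : rpbit m' i with _ | _ <;> simp_all
    have h1 : ∀ i a, rpbit (a / 2) i = rpbit a (i + 1) := by
      intro i a
      unfold rpbit
      rw [pow_succ', Nat.div_div_eq_div_mul]
    have h2 := ih (m := m / 2) (m' := m' / 2) (by rw [pow_succ] at hm; omega)
      (by rw [pow_succ] at hm'; omega) (by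
        ext i
        show rpbit (m / 2) i = true ↔ rpbit (m' / 2) i = true
        rw [h1, h1, h0])
    have h3 := h0 0
    unfold rpbit at h3
    rw [pow_zero, Nat.div_one, Nat.div_one] at h3
    have h4 := Nat.bodd_add_div2 m
    have h5 := Nat.bodd_add_div2 m'
    rw [Nat.div2_val] at h4 h5
    rw [← h4, ← h5, h2, h3]

/-- the refutation of largeness, in finite terms -/
def Rf (n i p : ℕ) (S D : ℕ → Prop) (c m : ℕ) : Prop :=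
  (∃ z, z < n ∧ (blk z < i ∧ ¬ (z ∈ Pm m ↔ S z))) ∨
  (∃ k, k < n ∧ (i ≤ k ∧ ∃ t, t < 2 ^ (k + 1 - p) ∧ ∀ j, j < 2 ^ (k + 1) → ∃ x, x < n ∧
    (idx k j x < n ∧ ¬ (idx k j x ∈ Pm m ↔ ∃ ρ, ρ < 2 ^ n ∧
      ((∀ z, z < n → (z ∈ Pm ρ ↔ z ∈ Pm m ∧ blk z < k)) ∧ tup k t ρ x ∈ Pm c))))) ∨
  (∃ e, e < p ∧ ((D e ∧ Qc true e n (Pm m)) ∨ (¬ D e ∧ Qc false e n (Pm m))))

theorem tup_lt {k t ρ x K : ℕ} (hk : k < K) (ht : t < K) (hρ : ρ < K) (hx : x < K) :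
    tup k t ρ x < tup K K K K := by
  unfold tup
  exact Nat.pair_lt_pair_left_of_lt _ _ _ _ hk ht hρ hx
where
  Nat.pair_lt_pair_left_of_lt (k t ρ x : ℕ) (hk : k < K) (ht : t < K) (hρ : ρ < K) (hx : x < K) :
      Nat.pair (Nat.pair k t) (Nat.pair ρ x) < Nat.pair (Nat.pair K K) (Nat.pair K K) := by
    have h1 : Nat.pair k t < Nat.pair K K :=
      (Nat.pair_lt_pair_left t hk).trans (Nat.pair_lt_pair_right K ht)
    have h2 : Nat.pair ρ x < Nat.pair K K :=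
      (Nat.pair_lt_pair_left x hρ).trans (Nat.pair_lt_pair_right K hx)
    exact (Nat.pair_lt_pair_left _ h1).trans (Nat.pair_lt_pair_right _ h2)

theorem not_Lg_iff (n i p : ℕ) (S D : Set ℕ) :
    ¬ Lg Qc n i p S D ↔ ∃ c, ∀ m, m < 2 ^ n → Rf n i p (· ∈ S) (· ∈ D) c m := by
  constructor
  · intro h
    unfold Lg at h
    rw [not_forall] at h
    obtain ⟨γ, hγ⟩ := h
    let K := 2 ^ n + n
    obtain ⟨c, -, hc⟩ := exists_Pm (tup K K K K)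
      {y | y.unpair.2.unpair.2 ∈ γ y.unpair.1.unpair.1 y.unpair.1.unpair.2 (Pm y.unpair.2.unpair.1)}
    refine ⟨c, fun m hm => ?_⟩
    by_contra hR
    unfold Rf at hR
    push Not at hR
    obtain ⟨r1, r2, r3⟩ := hR
    apply hγ
    refine ⟨Pm m, ?_, ?_, ?_⟩
    · intro z hz hb
      exact r1 z hz hb
    · intro k hk t ht
      by_cases hkn : k < n
      · obtain ⟨j, hj, h1⟩ := r2 k hkn hk t ht
        refine ⟨j, hj, fun x hx => ?_⟩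
        have hxn : x < n := (le_idx3 k j x).trans_lt hx
        have h2 : (idx k j x ∈ Pm m ↔ ∃ ρ, ρ < 2 ^ n ∧
          ((∀ z, z < n → (z ∈ Pm ρ ↔ z ∈ Pm m ∧ blk z < k)) ∧ tup k t ρ x ∈ Pm c)) := by
          have := h1 x hxn hx
          tauto
        rw [h2]
        have ht' : t < K := by
          have e1 : 2 ^ (k + 1 - p) ≤ 2 ^ n := Nat.pow_le_pow_right (by norm_num) (by omega)
          omega
        have key : ∀ ρ, ρ < 2 ^ n → (tup k t ρ x ∈ Pm c ↔ x ∈ γ k t (Pm ρ)) := by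
          intro ρ hρ
          rw [hc _ (tup_lt (by omega) ht' (by omega) (by omega))]
          simp [tup]
        constructor
        · rintro ⟨ρ, hρ, h3, h4⟩
          have h5 : His n k m ρ := ⟨hρ, h3⟩
          rw [← h5.eq]
          exact (key ρ hρ).1 h4
        · intro h3
          obtain ⟨ρ, hρ⟩ := exists_His n k m
          refine ⟨ρ, hρ.1, hρ.2, (key ρ hρ.1).2 ?_⟩
          rw [hρ.eq]; exact h3
      · refine ⟨0, by positivity, fun x hx => ?_⟩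
        have := le_idx1 k 0 x
        omega
    · intro e he hv
      rcases hv with ⟨a, b⟩ | ⟨a, b⟩
      · exact (r3 e he).1 a b
      · exact (r3 e he).2 a b
  · rintro ⟨c, hc⟩ hL
    obtain ⟨P, h1, h2, h3⟩ := hL fun k t R => {x | ∃ ρ, ρ < 2 ^ n ∧ Pm ρ = R ∧ tup k t ρ x ∈ Pm c}
    obtain ⟨m, hm, hmP⟩ := exists_Pm n P
    rcases hc m hm with ⟨z, hz, hb, r1⟩ | ⟨k, hkn, hk, t, ht, r2⟩ | ⟨e, he, r3⟩
    · exact r1 (by rw [hmP z hz]; exact h1 z hz hb)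
    · obtain ⟨j, hj, h4⟩ := h2 k hk t ht
      obtain ⟨x, hxn, hx, h5⟩ := r2 j hj
      apply h5
      rw [hmP _ hx, h4 x hx]
      show (∃ ρ, ρ < 2 ^ n ∧ Pm ρ = hs n k P ∧ tup k t ρ x ∈ Pm c) ↔ _
      refine exists_congr fun ρ => and_congr_right fun hρ => and_congr_left fun _ => ?_
      constructor
      · intro h6 z hz
        rw [h6, hmP z hz]
        simp [hs, hz]
      · intro h6
        ext z
        by_cases hz : z < n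
        · rw [h6 z hz, hmP z hz]
          simp [hs, hz]
        · constructor
          · intro h7; exact absurd (Pm_lt hρ h7) hz
          · intro h7; exact absurd h7.2.1 hz
    · apply h3 e he
      rcases r3 with ⟨a, b⟩ | ⟨a, b⟩
      · exact Or.inl ⟨a, Qc_QS.loc _ _ _ _ _ hmP b⟩
      · exact Or.inr ⟨a, Qc_QS.loc _ _ _ _ _ hmP b⟩

/-! ### computability of the refutation -/

section comp
variable {A : Set ℕ}

theorem ci_two {α : Type} [Primcodable α] {f : α → ℕ} (hf : CompIn A f) :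
    CompIn A fun a => 2 ^ f a :=
  CompIn.comp_of (f := fun n : ℕ => 2 ^ n) (Primrec.nat_iff.2 rp_primrec_two).to_comp hf

attribute [fun_prop] ci_two

theorem ci_blk {α : Type} [Primcodable α] {f : α → ℕ} (hf : CompIn A f) :
    CompIn A fun a => blk (f a) := by
  unfold blk
  fun_prop

attribute [fun_prop] ci_blk

theorem ci_idx {α : Type} [Primcodable α] {f g h : α → ℕ} (hf : CompIn A f) (hg : CompIn A g)
    (hh : CompIn A h) : CompIn A fun a => idx (f a) (g a) (h a) := by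
  unfold idx
  fun_prop

attribute [fun_prop] ci_idx

theorem ci_tup {α : Type} [Primcodable α] {f g h k : α → ℕ} (hf : CompIn A f) (hg : CompIn A g)
    (hh : CompIn A h) (hk : CompIn A k) : CompIn A fun a => tup (f a) (g a) (h a) (k a) := by
  unfold tup
  fun_prop

attribute [fun_prop] ci_tup

/-- `Rf` with `S`, `D` decidable uniformly in a parameter `w` -/
theorem dec_Rf {β : Type} [Primcodable β] {S D : β → ℕ → Prop}
    (hS : DecIn A fun y : β × ℕ => S y.1 y.2) (hD : DecIn A fun y : β × ℕ => D y.1 y.2) :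
    DecIn A fun a : (β × ℕ × ℕ × ℕ) × ℕ × ℕ =>
      Rf a.1.2.1 a.1.2.2.1 a.1.2.2.2 (S a.1.1) (D a.1.1) a.2.1 a.2.2 := by
  unfold Rf
  refine DecIn.or ?_ (DecIn.or ?_ ?_)
  · refine DecIn.ex_lt' (S := fun (a : (β × ℕ × ℕ × ℕ) × ℕ × ℕ) z =>
      (blk z < a.1.2.2.1 ∧ ¬ (z ∈ Pm a.2.2 ↔ S a.1.1 z))) ?_ (f := fun a => a.1.2.1) (by fun_prop)
    refine DecIn.and (DecIn.lt (by fun_prop) (by fun_prop)) (DecIn.not (DecIn.iff
      (dec_bit (by fun_prop) (by fun_prop)) ?_))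
    exact DecIn.comp (P := fun y : β × ℕ => S y.1 y.2)
      (f := fun x : ((β × ℕ × ℕ × ℕ) × ℕ × ℕ) × ℕ => (x.1.1.1, x.2)) hS (by fun_prop)
  · refine DecIn.ex_lt' (S := fun (a : (β × ℕ × ℕ × ℕ) × ℕ × ℕ) k =>
      a.1.2.2.1 ≤ k ∧ ∃ t, t < 2 ^ (k + 1 - a.1.2.2.2) ∧ ∀ j, j < 2 ^ (k + 1) → ∃ x, x < a.1.2.1 ∧
      (idx k j x < a.1.2.1 ∧ ¬ (idx k j x ∈ Pm a.2.2 ↔ ∃ ρ, ρ < 2 ^ a.1.2.1 ∧
      ((∀ z, z < a.1.2.1 → (z ∈ Pm ρ ↔ z ∈ Pm a.2.2 ∧ blk z < k)) ∧ tup k t ρ x ∈ Pm a.2.1)))) ?_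
      (f := fun a => a.1.2.1) (by fun_prop)
    refine DecIn.and (DecIn.le (by fun_prop) (by fun_prop)) ?_
    refine DecIn.ex_lt' (S := fun (b : ((β × ℕ × ℕ × ℕ) × ℕ × ℕ) × ℕ) t =>
      ∀ j, j < 2 ^ (b.2 + 1) → ∃ x, x < b.1.1.2.1 ∧
      (idx b.2 j x < b.1.1.2.1 ∧ ¬ (idx b.2 j x ∈ Pm b.1.2.2 ↔ ∃ ρ, ρ < 2 ^ b.1.1.2.1 ∧
      ((∀ z, z < b.1.1.2.1 → (z ∈ Pm ρ ↔ z ∈ Pm b.1.2.2 ∧ blk z < b.2)) ∧
        tup b.2 t ρ x ∈ Pm b.1.2.1)))) ?_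
      (f := fun b => 2 ^ (b.2 + 1 - b.1.1.2.2.2)) (by fun_prop)
    refine DecIn.all_lt' (S := fun (b : (((β × ℕ × ℕ × ℕ) × ℕ × ℕ) × ℕ) × ℕ) j =>
      ∃ x, x < b.1.1.1.2.1 ∧
      (idx b.1.2 j x < b.1.1.1.2.1 ∧ ¬ (idx b.1.2 j x ∈ Pm b.1.1.2.2 ↔ ∃ ρ, ρ < 2 ^ b.1.1.1.2.1 ∧
      ((∀ z, z < b.1.1.1.2.1 → (z ∈ Pm ρ ↔ z ∈ Pm b.1.1.2.2 ∧ blk z < b.1.2)) ∧
        tup b.1.2 b.2 ρ x ∈ Pm b.1.1.2.1)))) ?_
      (f := fun b => 2 ^ (b.1.2 + 1)) (by fun_prop)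
    refine DecIn.ex_lt' (S := fun (b : ((((β × ℕ × ℕ × ℕ) × ℕ × ℕ) × ℕ) × ℕ) × ℕ) x =>
      (idx b.1.1.2 b.2 x < b.1.1.1.1.2.1 ∧ ¬ (idx b.1.1.2 b.2 x ∈ Pm b.1.1.1.2.2 ↔
        ∃ ρ, ρ < 2 ^ b.1.1.1.1.2.1 ∧
      ((∀ z, z < b.1.1.1.1.2.1 → (z ∈ Pm ρ ↔ z ∈ Pm b.1.1.1.2.2 ∧ blk z < b.1.1.2)) ∧
        tup b.1.1.2 b.1.2 ρ x ∈ Pm b.1.1.1.2.1)))) ?_
      (f := fun b => b.1.1.1.1.2.1) (by fun_prop)
    refine DecIn.and (DecIn.lt (by fun_prop) (by fun_prop)) (DecIn.not (DecIn.iff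
      (dec_bit (by fun_prop) (by fun_prop)) ?_))
    refine DecIn.ex_lt' (S := fun (b : (((((β × ℕ × ℕ × ℕ) × ℕ × ℕ) × ℕ) × ℕ) × ℕ) × ℕ) ρ =>
      ((∀ z, z < b.1.1.1.1.1.2.1 → (z ∈ Pm ρ ↔ z ∈ Pm b.1.1.1.1.2.2 ∧ blk z < b.1.1.1.2)) ∧
        tup b.1.1.1.2 b.1.1.2 ρ b.2 ∈ Pm b.1.1.1.1.2.1)) ?_
      (f := fun b => 2 ^ b.1.1.1.1.1.2.1) (by fun_prop)
    refine DecIn.and ?_ (dec_bit (by fun_prop) (by fun_prop))
    refine DecIn.all_lt' (S := fun (b : ((((((β × ℕ × ℕ × ℕ) × ℕ × ℕ) × ℕ) × ℕ) × ℕ) × ℕ) × ℕ) z =>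
      (z ∈ Pm b.2 ↔ z ∈ Pm b.1.1.1.1.1.2.2 ∧ blk z < b.1.1.1.1.2)) ?_
      (f := fun b => b.1.1.1.1.1.1.2.1) (by fun_prop)
    exact DecIn.iff (dec_bit (by fun_prop) (by fun_prop)) (DecIn.and
      (dec_bit (by fun_prop) (by fun_prop)) (DecIn.lt (by fun_prop) (by fun_prop)))
  · refine DecIn.ex_lt' (S := fun (a : (β × ℕ × ℕ × ℕ) × ℕ × ℕ) e =>
      (D a.1.1 e ∧ Qc true e a.1.2.1 (Pm a.2.2)) ∨ (¬ D a.1.1 e ∧ Qc false e a.1.2.1 (Pm a.2.2))) ?_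
      (f := fun a => a.1.2.2.2) (by fun_prop)
    have hD' := DecIn.comp (P := fun y : β × ℕ => D y.1 y.2)
      (f := fun x : ((β × ℕ × ℕ × ℕ) × ℕ × ℕ) × ℕ => (x.1.1.1, x.2)) hD (by fun_prop)
    exact DecIn.or (DecIn.and hD' (dec_Qc _ (by fun_prop) (by fun_prop) (by fun_prop)))
      (DecIn.and hD'.not (dec_Qc _ (by fun_prop) (by fun_prop) (by fun_prop)))

/-- non-largeness is c.e. -/
theorem re_not_Lg {β : Type} [Primcodable β] {S D : β → Set ℕ}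
    (hS : DecIn A fun y : β × ℕ => y.2 ∈ S y.1) (hD : DecIn A fun y : β × ℕ => y.2 ∈ D y.1) :
    REIn A fun a : β × ℕ × ℕ × ℕ => ¬ Lg Qc a.2.1 a.2.2.1 a.2.2.2 (S a.1) (D a.1) := by
  have h1 : REIn A fun a : β × ℕ × ℕ × ℕ =>
      ∃ c, ∀ m, m < 2 ^ a.2.1 → Rf a.2.1 a.2.2.1 a.2.2.2 (· ∈ S a.1) (· ∈ D a.1) c m := by
    refine REIn.ex (S := fun (a : β × ℕ × ℕ × ℕ) c => ∀ m, m < 2 ^ a.2.1 →
      Rf a.2.1 a.2.2.1 a.2.2.2 (· ∈ S a.1) (· ∈ D a.1) c m) ?_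
    have h2 : DecIn A fun b : (β × ℕ × ℕ × ℕ) × ℕ => ∀ m, m < 2 ^ b.1.2.1 →
      Rf b.1.2.1 b.1.2.2.1 b.1.2.2.2 (· ∈ S b.1.1) (· ∈ D b.1.1) b.2 m := by
      refine DecIn.all_lt' (S := fun (b : (β × ℕ × ℕ × ℕ) × ℕ) m =>
        Rf b.1.2.1 b.1.2.2.1 b.1.2.2.2 (· ∈ S b.1.1) (· ∈ D b.1.1) b.2 m) ?_
        (f := fun b => 2 ^ b.1.2.1) (by fun_prop)
      exact DecIn.comp (P := fun a : (β × ℕ × ℕ × ℕ) × ℕ × ℕ =>
        Rf a.1.2.1 a.1.2.2.1 a.1.2.2.2 (· ∈ S a.1.1) (· ∈ D a.1.1) a.2.1 a.2.2)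
        (f := fun x : ((β × ℕ × ℕ × ℕ) × ℕ) × ℕ => (x.1.1, (x.1.2, x.2)))
        (dec_Rf (S := fun b z => z ∈ S b) (D := fun b z => z ∈ D b) hS hD) (by fun_prop)
    exact h2.1
  exact h1.of_eq fun a => (not_Lg_iff _ _ _ _ _).symm

end comp

end Pool.Agent.Run7.h57.MUB
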