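import Pool.Agent.Run7.h57.MUB.V

/-!
The c.e. set of strings describing a bad next state.
-/

set_option autoImplicit false

namespace Pool.Agent.Run7.h57.MUB

open Encodable Pool.Agent.Helper578.JD Pool.Agent.Helper578.JD.Oracle Pool.Agent.Helper578.JD.Defs
open Pool.Agent.Helper578.JD.RE Pool.Agent.H623R3.JC Pool.Agent.Helper227.EN
open Pool.Agent.Helper227 (pre)

theorem re_of_rein {α : Type} [Primcodable α] {S : α → Prop} (h : REIn (∅ : Set ℕ) S) :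
    REPred S := by
  obtain ⟨R, hR, h1⟩ := h
  have h2 : REPred fun a => ∃ c : Info, R a c ∧ c.1 = [] := by
    refine RE.ex (p := fun a (c : Info) => R a c ∧ c.1 = []) (RE.and hR ?_)
    exact RE.eq (by fun_prop) (by fun_prop)
  refine h2.of_eq fun a => ?_
  rw [h1 a]
  refine exists_congr fun c => and_congr_right fun _ => ?_
  constructor
  · intro h3
    refine ⟨fun x hx => ?_, fun x _ => Set.notMem_empty x⟩
    rw [h3] at hx
    simp at hx
  · intro h3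
    exact List.eq_nil_iff_forall_not_mem.2 fun x hx => h3.1 x hx

/-- the part `r` of the string `σ` -/
def st (σ : List Bool) (r : ℕ) : Set ℕ := {x | σ[4 * x + r]? = some true}

/-- the string shows that the state is bad -/
def Vb (σ : List Bool) : Prop :=
  ∃ n i, 4 * (2 * n + 2 * i + 2) + 4 ≤ σ.length ∧ σ[4 * i + 3]? = some true ∧
    ¬ Gd Qc n i (st σ 0) (st σ 1) (st σ 2)

theorem not_Gd_iff (n i : ℕ) (s a v : Set ℕ) : ¬ Gd Qc n i s a v ↔
    (∃ z, z < n ∧ (blk z < i ∧ ¬ (2 * z ∈ v ↔ 2 * z ∈ s))) ∨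
    (∃ e, e < i ∧ ¬ (2 * e + 1 ∈ v ↔ 2 * e + 1 ∈ s)) ∨
    (∀ j, j < 2 ^ (i + 1) → ∃ x, x < n ∧ (idx i j x < n ∧ ¬ (2 * idx i j x ∈ v ↔ x ∈ a))) ∨
    ¬ Lg Qc n (i + 1) (i + 1) (ev v) (od v) := by
  unfold Gd
  simp only [not_and_or]
  refine or_congr ?_ (or_congr ?_ (or_congr ?_ Iff.rfl))
  · push Not
    refine exists_congr fun z => ?_
    simp only [ev, Set.mem_ofPred_eq]
  · push Not
    refine exists_congr fun z => ?_
    simp only [od, Set.mem_ofPred_eq]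
  · constructor
    · intro h j hj
      by_contra h1
      apply h
      refine ⟨j, hj, fun x hx => ?_⟩
      by_contra h2
      exact h1 ⟨x, (le_idx3 i j x).trans_lt hx, hx, h2⟩
    · rintro h ⟨j, hj, h1⟩
      obtain ⟨x, _, h2, h3⟩ := h j hj
      exact h3 (h1 x h2)

theorem re_Vb : REPred Vb := by
  refine re_of_rein ?_
  unfold Vb
  have hst : ∀ {α : Type} [Primcodable α] (f : α → List Bool) (g : α → ℕ) (r : ℕ),
      CompIn (∅ : Set ℕ) f → CompIn (∅ : Set ℕ) g →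
      DecIn (∅ : Set ℕ) fun a => g a ∈ st (f a) r := by
    intro α _ f g r hf hg
    exact DecIn.eq (f := fun a => (f a)[4 * (g a) + r]?) (g := fun _ => some true)
      (by fun_prop) (by fun_prop)
  refine REIn.ex (S := fun (σ : List Bool) n => ∃ i, 4 * (2 * n + 2 * i + 2) + 4 ≤ σ.length ∧
    σ[4 * i + 3]? = some true ∧ ¬ Gd Qc n i (st σ 0) (st σ 1) (st σ 2)) ?_
  refine REIn.ex (S := fun (y : List Bool × ℕ) i => 4 * (2 * y.2 + 2 * i + 2) + 4 ≤ y.1.length ∧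
    y.1[4 * i + 3]? = some true ∧ ¬ Gd Qc y.2 i (st y.1 0) (st y.1 1) (st y.1 2)) ?_
  refine REIn.and (DecIn.le (by fun_prop) (by fun_prop)).1 (REIn.and
    (DecIn.eq (by fun_prop) (by fun_prop)).1 ?_)
  have h0 : REIn (∅ : Set ℕ) fun b : (List Bool × ℕ) × ℕ =>
      (∃ z, z < b.1.2 ∧ (blk z < b.2 ∧ ¬ (2 * z ∈ st b.1.1 2 ↔ 2 * z ∈ st b.1.1 0))) ∨
      (∃ e, e < b.2 ∧ ¬ (2 * e + 1 ∈ st b.1.1 2 ↔ 2 * e + 1 ∈ st b.1.1 0)) ∨
      (∀ j, j < 2 ^ (b.2 + 1) → ∃ x, x < b.1.2 ∧ (idx b.2 j x < b.1.2 ∧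
        ¬ (2 * idx b.2 j x ∈ st b.1.1 2 ↔ x ∈ st b.1.1 1))) ∨
      ¬ Lg Qc b.1.2 (b.2 + 1) (b.2 + 1) (ev (st b.1.1 2)) (od (st b.1.1 2)) := by
    refine REIn.or ?_ (REIn.or ?_ (REIn.or ?_ ?_))
    · refine (DecIn.ex_lt' (S := fun (b : (List Bool × ℕ) × ℕ) z =>
        (blk z < b.2 ∧ ¬ (2 * z ∈ st b.1.1 2 ↔ 2 * z ∈ st b.1.1 0))) ?_ (f := fun b => b.1.2)
        (by fun_prop)).1
      exact DecIn.and (DecIn.lt (by fun_prop) (by fun_prop)) (DecIn.not (DecIn.iff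
        (hst _ _ 2 (by fun_prop) (by fun_prop)) (hst _ _ 0 (by fun_prop) (by fun_prop))))
    · refine (DecIn.ex_lt' (S := fun (b : (List Bool × ℕ) × ℕ) e =>
        ¬ (2 * e + 1 ∈ st b.1.1 2 ↔ 2 * e + 1 ∈ st b.1.1 0)) ?_ (f := fun b => b.2)
        (by fun_prop)).1
      exact DecIn.not (DecIn.iff
        (hst _ _ 2 (by fun_prop) (by fun_prop)) (hst _ _ 0 (by fun_prop) (by fun_prop)))
    · refine (DecIn.all_lt' (S := fun (b : (List Bool × ℕ) × ℕ) j => ∃ x, x < b.1.2 ∧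
        (idx b.2 j x < b.1.2 ∧ ¬ (2 * idx b.2 j x ∈ st b.1.1 2 ↔ x ∈ st b.1.1 1))) ?_
        (f := fun b => 2 ^ (b.2 + 1)) (by fun_prop)).1
      refine DecIn.ex_lt' (S := fun (b : ((List Bool × ℕ) × ℕ) × ℕ) x =>
        (idx b.1.2 b.2 x < b.1.1.2 ∧ ¬ (2 * idx b.1.2 b.2 x ∈ st b.1.1.1 2 ↔ x ∈ st b.1.1.1 1))) ?_
        (f := fun b => b.1.1.2) (by fun_prop)
      exact DecIn.and (DecIn.lt (by fun_prop) (by fun_prop)) (DecIn.not (DecIn.iff
        (hst _ _ 2 (by fun_prop) (by fun_prop)) (hst _ _ 1 (by fun_prop) (by fun_prop))))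
    · have h1 := re_not_Lg (A := (∅ : Set ℕ)) (β := List Bool) (S := fun σ => ev (st σ 2))
        (D := fun σ => od (st σ 2))
        (hst (fun y : List Bool × ℕ => y.1) (fun y => 2 * y.2) 2 (by fun_prop) (by fun_prop))
        (hst (fun y : List Bool × ℕ => y.1) (fun y => 2 * y.2 + 1) 2 (by fun_prop) (by fun_prop))
      exact REIn.comp h1 (f := fun b : (List Bool × ℕ) × ℕ => (b.1.1, (b.1.2, (b.2 + 1, b.2 + 1))))
        (by fun_prop)
  exact h0.of_eq fun b => (not_Gd_iff _ _ _ _ _).symm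

/-! ### strings of a state -/

/-- the sequence `X` describes the state -/
def Des (X : ℕ → Bool) (i : ℕ) (s a v : Set ℕ) : Prop :=
  (∀ x, X (4 * x) = true ↔ x ∈ s) ∧ (∀ x, X (4 * x + 1) = true ↔ x ∈ a) ∧
  (∀ x, X (4 * x + 2) = true ↔ x ∈ v) ∧ ∀ x, X (4 * x + 3) = true ↔ x = i

theorem pre_get (X : ℕ → Bool) (k x : ℕ) (h : x < k) : (pre X k)[x]? = some (X x) := by
  unfold pre
  rw [List.getElem?_map, List.getElem?_range h]
  rfl

theorem pre_len (X : ℕ → Bool) (k : ℕ) : (pre X k).length = k := by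
  unfold pre
  simp

theorem st_pre {X : ℕ → Bool} {k x r : ℕ} (h : 4 * x + r < k) :
    x ∈ st (pre X k) r ↔ X (4 * x + r) = true := by
  show (pre X k)[4 * x + r]? = some true ↔ _
  rw [pre_get X k _ h]
  simp

theorem not_Vb_of_Gd {X : ℕ → Bool} {i : ℕ} {s a v : Set ℕ} (hX : Des X i s a v) {m : ℕ}
    (h : Gd Qc m i s a v) : ∀ k, k ≤ m → ¬ Vb (pre X k) := by
  rintro k hk ⟨n, i', h1, h2, h3⟩
  rw [pre_len] at h1
  rw [pre_get X k _ (by omega)] at h2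
  have hi : i' = i := (hX.2.2.2 i').1 (Option.some.inj h2)
  subst hi
  apply h3
  refine Gd.loc Qc_QS (fun z hz => ?_) (fun z hz => ?_) (fun z hz => ?_)
    (h.mono Qc_QS (by omega : n ≤ m))
  · rw [st_pre (by omega), ← hX.1 z]; rfl
  · rw [st_pre (by omega), ← hX.2.1 z]
  · rw [st_pre (by omega), ← hX.2.2.1 z]

theorem Gd_of_not_Vb {X : ℕ → Bool} {i : ℕ} {s a v : Set ℕ} (hX : Des X i s a v)
    (h : ∀ k, ¬ Vb (pre X k)) (n : ℕ) : Gd Qc n i s a v := by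
  by_contra hc
  apply h (4 * (2 * n + 2 * i + 2) + 4)
  refine ⟨n, i, by rw [pre_len], ?_, fun h1 => hc ?_⟩
  · rw [pre_get X _ _ (by omega), (hX.2.2.2 i).2 rfl]
  · refine Gd.loc Qc_QS (fun z hz => ?_) (fun z hz => ?_) (fun z hz => ?_) h1
    · rw [st_pre (by omega), ← hX.1 z]; rfl
    · rw [st_pre (by omega), ← hX.2.1 z]
    · rw [st_pre (by omega), ← hX.2.2.1 z]

end Pool.Agent.Run7.h57.MUB
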